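import Pool.Agent.Lib_MP_22d2c8_bs.Seq

/-!
# BS-Eval: guessed evaluation of the circuit by a program that reads the sequences

Setting: `e : X → (W ⊕ U → Bool)` a family of inputs in which only the bits in `Act` vary, and no bit
of `Act` occurs in the reading sequence of a mid gate.

`comp_gate`: strong induction on `g`. By `seq_eq`, `gval_eq` and `Comp.join` it is enough to show for
every source `s` of `g`: `Comp rd (sseq s) (wd K (sseq s).length) (fun x => gsrc z (e x) s)`:
* `s = inl (inl w)`: sequence `[w]`, `Comp.one` and `Comp.mono` (`2 ≤ 2 ^ (K + 1) * 1`);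
* `s = inl (inr u)`: sequence `[]`, value constant in `x` (`hU`), `Comp.const`;
* `s = inr h`: `comp_ref` for `h < g`.
`comp_ref` for `h` (assuming the first claim for `h`): cases of `rseq`, `rval`:
* `h` small: sequence `loc h`, value `val (e x) h` determined by the letters of `loc h` (`loc_det`, `hU`):
  `Comp.det` and `mono`: `2 ^ l ≤ wd K l` for `l ≤ K` (`loc_length`);
* `h` big, shared, `th (lev h) < |seq h|` (so `rseq h = []`): if `Θ < |seq h|` then `h` is large and
  the value is the constant `z h`; otherwise `h` is mid, the value is `gval z (e x) h`, which is constant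
  by the first claim and `Comp.isConst` (`hmid`, `hW`);
* otherwise `rseq h = seq h`, `h` is not large, the value is `gval z (e x) h`: first claim.
`comp_chain`: let `M = 2 ^ (K + 1) * (R + 1)`, so `wd K l ≤ M` for `l ≤ R`. By induction on `gs` from the
right (`List.reverseRecOn`, `List.flatMap_append`) `Comp rd (gs.flatMap seq) (2 * M) (fun x => decide (∀ g ∈ gs, ...))`:
`[]`: const; `gs ++ [g]`: `Comp.append` of the induction hypothesis and of `Comp.map` of `comp_gate g`
(after `mono` to `M`), `max (2 * M) (2 * M) = 2 * M`. Then `append` with `comp_ref o` and `f = Prod.mk`.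
-/

namespace Pool.Agent.Lib_MP_22d2c8_bs

open Finset

namespace Circuit

variable {W U : Type} (C : Circuit (W ⊕ U)) (K : ℕ) (lev : C.Gate → ℕ) (th : ℕ → ℕ) (Θ : ℕ)
variable {X : Type} (e : X → W ⊕ U → Bool) (Act : Set W)

private theorem Eval_wd {l M : ℕ} (hl : l ≤ M) : wd K l ≤ 2 ^ (K + 1) * (M + 1) := by
  unfold wd
  split_ifs with h
  · exact Nat.mul_pos (by positivity) (Nat.succ_pos _)
  · exact Nat.mul_le_mul_left _ (le_trans hl (Nat.le_succ _))

private theorem Eval_ref (hU : ∀ x y u, e x (Sum.inr u) = e y (Sum.inr u))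
    (hW : ∀ v, v ∉ Act → ∀ x y, e x (Sum.inl v) = e y (Sum.inl v))
    (hmid : ∀ h ∈ C.mids K lev th Θ, ∀ v ∈ C.seq K lev th h, v ∉ Act)
    (z : C.Gate → Bool) (h : C.Gate)
    (hg : Comp (fun x v => e x (Sum.inl v)) (C.seq K lev th h) (wd K (C.seq K lev th h).length)
      (fun x => C.gval K lev th Θ z (e x) h)) :
    Comp (fun x v => e x (Sum.inl v)) (C.rseq K lev th h) (wd K (C.rseq K lev th h).length)
      (fun x => C.rval K lev th Θ z (e x) h) := by
  classical
  have h0 : 0 < wd K ([] : List W).length := by
    unfold wd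
    rw [if_pos (List.length_nil)]
    exact Nat.one_pos
  by_cases hs : C.Small K h
  · have e1 : C.rseq K lev th h = C.loc K h := by
      unfold rseq
      rw [if_pos hs]
    have e2 : (fun x => C.rval K lev th Θ z (e x) h) = fun x => C.val (e x) h := by
      funext x
      unfold rval
      rw [if_pos hs]
    rw [e1, e2]
    have h1 : Comp (fun x v => e x (Sum.inl v)) (C.loc K h) (2 ^ (C.loc K h).length)
        (fun x => C.val (e x) h) :=
      Comp.det fun x y hxy => C.loc_det K hs (e x) (e y) hxy (hU x y)
    refine h1.mono ?_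
    have h2 := C.loc_length K h
    unfold wd
    split_ifs with h3
    · rw [h3, pow_zero]
    · calc 2 ^ (C.loc K h).length ≤ 2 ^ (K + 1) := Nat.pow_le_pow_right (by norm_num) (by omega)
        _ = 2 ^ (K + 1) * 1 := (mul_one _).symm
        _ ≤ 2 ^ (K + 1) * (C.loc K h).length := Nat.mul_le_mul_left _ (Nat.pos_of_ne_zero h3)
  · by_cases hc : C.Shared K h ∧ th (lev h) < (C.seq K lev th h).length
    · have e1 : C.rseq K lev th h = [] := by
        unfold rseq
        rw [if_neg hs, if_pos hc]
      rw [e1]
      refine Comp.const h0 ?_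
      by_cases hl : Θ < (C.seq K lev th h).length
      · have hL : C.Large K lev th Θ h := ⟨hs, hc.1, hc.2, hl⟩
        intro x y
        unfold rval
        rw [if_neg hs, if_neg hs, if_pos hL, if_pos hL]
      · have hL : ¬ C.Large K lev th Θ h := fun h' => hl h'.2.2.2
        have hM : h ∈ C.mids K lev th Θ := by
          unfold mids
          rw [mem_filter]
          exact ⟨mem_univ _, hs, hc.1, hc.2, not_lt.1 hl⟩
        intro x y
        unfold rval
        rw [if_neg hs, if_neg hs, if_neg hL, if_neg hL]
        exact hg.isConst (fun v hv x y => hW v (hmid h hM v hv) x y) x y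
    · have e1 : C.rseq K lev th h = C.seq K lev th h := by
        unfold rseq
        rw [if_neg hs, if_neg hc]
      have hL : ¬ C.Large K lev th Θ h := fun h' => hc ⟨h'.2.1, h'.2.2.1⟩
      have e2 : (fun x => C.rval K lev th Θ z (e x) h) =
          fun x => C.gval K lev th Θ z (e x) h := by
        funext x
        unfold rval
        rw [if_neg hs, if_neg hL]
      rw [e1, e2]
      exact hg

theorem comp_gate (hU : ∀ x y u, e x (Sum.inr u) = e y (Sum.inr u))
    (hW : ∀ v, v ∉ Act → ∀ x y, e x (Sum.inl v) = e y (Sum.inl v))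
    (hmid : ∀ h ∈ C.mids K lev th Θ, ∀ v ∈ C.seq K lev th h, v ∉ Act)
    (z : C.Gate → Bool) (g : C.Gate) :
    Comp (fun x v => e x (Sum.inl v)) (C.seq K lev th g) (wd K (C.seq K lev th g).length)
      (fun x => C.gval K lev th Θ z (e x) g) := by
  induction g using WellFoundedLT.induction with
  | ind g ih =>
  have key : ∀ s : (W ⊕ U) ⊕ C.Gate, (∀ h, s = Sum.inr h → h < g) →
      Comp (fun x v => e x (Sum.inl v)) (C.sseq K lev th s) (wd K (C.sseq K lev th s).length)
        (fun x => C.gsrc K lev th Θ z (e x) s) := by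
    intro s hs
    rcases s with (w | u) | h
    · have h1 : Comp (fun x v => e x (Sum.inl v)) [w] 2 (fun x => e x (Sum.inl w)) := Comp.one w
      have h2 : 2 ≤ wd K ([w] : List W).length := by
        unfold wd
        rw [if_neg (by simp), List.length_singleton, mul_one]
        calc 2 = 2 ^ 1 := (pow_one 2).symm
          _ ≤ 2 ^ (K + 1) := Nat.pow_le_pow_right (by norm_num) (by omega)
      exact h1.mono h2
    · have h0 : 0 < wd K ([] : List W).length := by
        unfold wd
        rw [if_pos (List.length_nil)]
        exact Nat.one_pos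
      exact Comp.const h0 fun x y => hU x y u
    · exact C.Eval_ref K lev th Θ e Act hU hW hmid z h (ih h (hs h rfl))
  have h1 := Comp.join (key (C.src g false) fun h hh => C.src_lt g false h hh)
    (key (C.src g true) fun h hh => C.src_lt g true h hh) (C.op g)
  have e2 : (fun x => C.gval K lev th Θ z (e x) g) =
      fun x => C.op g (C.gsrc K lev th Θ z (e x) (C.src g false))
        (C.gsrc K lev th Θ z (e x) (C.src g true)) := by
    funext x
    exact C.gval_eq K lev th Θ z (e x) g
  rw [e2, C.seq_eq K lev th g]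
  exact h1

theorem comp_ref (hU : ∀ x y u, e x (Sum.inr u) = e y (Sum.inr u))
    (hW : ∀ v, v ∉ Act → ∀ x y, e x (Sum.inl v) = e y (Sum.inl v))
    (hmid : ∀ h ∈ C.mids K lev th Θ, ∀ v ∈ C.seq K lev th h, v ∉ Act)
    (z : C.Gate → Bool) (h : C.Gate) :
    Comp (fun x v => e x (Sum.inl v)) (C.rseq K lev th h) (wd K (C.rseq K lev th h).length)
      (fun x => C.rval K lev th Θ z (e x) h) :=
  C.Eval_ref K lev th Θ e Act hU hW hmid z h (C.comp_gate K lev th Θ e Act hU hW hmid z h)

open Classical in
theorem comp_chain (hU : ∀ x y u, e x (Sum.inr u) = e y (Sum.inr u))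
    (hW : ∀ v, v ∉ Act → ∀ x y, e x (Sum.inl v) = e y (Sum.inl v))
    (hmid : ∀ h ∈ C.mids K lev th Θ, ∀ v ∈ C.seq K lev th h, v ∉ Act)
    (z : C.Gate → Bool) (gs : List C.Gate) (o : C.Gate) (R : ℕ)
    (hR : ∀ g ∈ gs, (C.seq K lev th g).length ≤ R) (ho : (C.rseq K lev th o).length ≤ R) :
    Comp (fun x v => e x (Sum.inl v)) (gs.flatMap (C.seq K lev th) ++ C.rseq K lev th o)
      (2 ^ (K + 2) * (R + 1))
      (fun x => (decide (∀ g ∈ gs, C.gval K lev th Θ z (e x) g = z g),
        C.rval K lev th Θ z (e x) o)) := by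
  have hM : max (2 * (2 ^ (K + 1) * (R + 1))) (2 * (2 ^ (K + 1) * (R + 1))) =
      2 ^ (K + 2) * (R + 1) := by
    rw [max_self]
    ring
  have hchain : Comp (fun x v => e x (Sum.inl v)) (gs.flatMap (C.seq K lev th))
      (2 * (2 ^ (K + 1) * (R + 1)))
      (fun x => decide (∀ g ∈ gs, C.gval K lev th Θ z (e x) g = z g)) := by
    induction gs using List.reverseRecOn with
    | nil =>
      rw [List.flatMap_nil]
      exact Comp.const (by positivity) fun x y => by simp
    | append_singleton gs g ih =>
      have h1 := ih fun g' hg' => hR g' (List.mem_append_left _ hg')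
      have h2 : (C.seq K lev th g).length ≤ R := hR g (by simp)
      have h3 := ((C.comp_gate K lev th Θ e Act hU hW hmid z g).mono (Eval_wd K h2)).map
        (fun b => decide (b = z g))
      have h4 := Comp.append h1 h3 (fun a b => a && b)
      rw [max_self] at h4
      have e1 : (gs ++ [g]).flatMap (C.seq K lev th) =
          gs.flatMap (C.seq K lev th) ++ C.seq K lev th g := by
        rw [List.flatMap_append, List.flatMap_cons, List.flatMap_nil, List.append_nil]
      rw [e1]
      convert h4 using 2 with x
      rw [← Bool.decide_and]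
      congr 1
      simp only [List.mem_append, List.mem_singleton]
      refine propext ⟨fun h => ⟨fun g' hg' => h g' (Or.inl hg'), h g (Or.inr rfl)⟩, ?_⟩
      rintro ⟨ha, hb⟩ g' (hg' | hg')
      · exact ha g' hg'
      · rw [hg']
        exact hb
  have h5 := (C.comp_ref K lev th Θ e Act hU hW hmid z o).mono (Eval_wd K ho)
  have h6 := Comp.append hchain h5 Prod.mk
  rw [hM] at h6
  exact h6

end Circuit

end Pool.Agent.Lib_MP_22d2c8_bs
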