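import Pool.Agent.Lib_MP_22d2c8_bs.Seq

/-!
# BS-Lev: the level function

`lev g` = the largest number of shared gates on a path of big gates `p ++ [g]`, not counting `g` itself,
that is the supremum of `p.countP Shared` over the lists `p` such that `p ++ [g]` is a big path (bounded
by `d` because of `SharingDepthLE`; for small `g` the value does not matter, e.g. `sSup ∅ = 0`; `Nat.sSup_mem` or
`Nat.findGreatest`). If `h` is a big source of the big gate `g`, and `p ++ [h]` is a big path then so is
`(p ++ [h]) ++ [g]` (`List.isChain_append`), so `lev g ≥ lev h + (if h is shared then 1 else 0)`. If `g` is big and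
shared, the path `p ++ [g]` that realizes `lev g` (nonempty set: `p = []`) has `lev g + 1 ≤ d` shared gates.
-/

namespace Pool.Agent.Lib_MP_22d2c8_bs

open Finset

namespace Circuit

theorem exists_lev {W U : Type} (C : Circuit (W ⊕ U)) (K d : ℕ) (h : C.SharingDepthLE K d) :
    ∃ lev : C.Gate → ℕ, C.IsLev K d lev := by
  classical
  let S : C.Gate → Set ℕ := fun g => {n | ∃ p : List C.Gate, C.IsBigPath K (p ++ [g]) ∧
    p.countP (fun g => decide (C.Shared K g)) = n}
  have hb : ∀ g, BddAbove (S g) := by
    intro g
    refine ⟨d, ?_⟩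
    rintro n ⟨p, hp, rfl⟩
    have h1 := h _ hp
    rw [List.countP_append] at h1
    exact le_trans (Nat.le_add_right _ _) h1
  have hne : ∀ g, C.Big K g → (S g).Nonempty := by
    intro g hg
    refine ⟨0, [], ⟨?_, ?_⟩, rfl⟩
    · simp
    · intro a ha
      have : a = g := by simpa using ha
      exact this ▸ hg
  have hmem : ∀ g, C.Big K g → sSup (S g) ∈ S g := fun g hg => Nat.sSup_mem (hne g hg) (hb g)
  refine ⟨fun g => sSup (S g), ?_, ?_⟩
  · intro g s a hg ha hs
    obtain ⟨p, hp, hc⟩ := hmem a ha
    have hpg : C.IsBigPath K ((p ++ [a]) ++ [g]) := by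
      refine ⟨?_, ?_⟩
      · rw [List.isChain_append]
        refine ⟨hp.1, by simp, ?_⟩
        intro x hx y hy
        have hx' : x = a := by simpa [eq_comm] using hx
        have hy' : y = g := by simpa [eq_comm] using hy
        subst hx' hy'
        exact ⟨s, hs⟩
      · intro b hb'
        rcases List.mem_append.1 hb' with h1 | h1
        · exact hp.2 b h1
        · have : b = g := by simpa using h1
          exact this ▸ hg
    have hle : (p ++ [a]).countP (fun g => decide (C.Shared K g)) ≤ sSup (S g) :=
      le_csSup (hb g) ⟨p ++ [a], hpg, rfl⟩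
    rw [List.countP_append] at hle
    change sSup (S a) ≤ sSup (S g) ∧ (C.Shared K a → sSup (S a) < sSup (S g))
    rw [hc] at hle
    refine ⟨le_trans (Nat.le_add_right _ _) hle, fun hsh => ?_⟩
    have h1 : [a].countP (fun g => decide (C.Shared K g)) = 1 := by
      simp [hsh]
    rw [h1] at hle
    exact hle
  · intro g hg hsh
    obtain ⟨p, hp, hc⟩ := hmem g hg
    have h1 := h _ hp
    rw [List.countP_append] at h1
    have h2 : [g].countP (fun g => decide (C.Shared K g)) = 1 := by
      simp [hsh]
    rw [hc, h2] at h1
    exact h1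

end Circuit

end Pool.Agent.Lib_MP_22d2c8_bs
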