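import Pool.Agent.Lib_MP_22d2c8_bs.Defs

/-!
# BS-Select: variables with few occurrences can be separated by the blocks

Positions of `L` are cut into blocks of length `b = n / (16 r) + 1`; there are at most `T = 16 r^2` of them
(`r * n ≤ T * b`, as `n ≤ 16 * r * (n / (16 * r) + 1)`). For a block `s < T` let `X s` = the `i` such that `inl i` occurs in
block `s`, `Y s` the same for `inr`; both have at most `b` elements. Let `tx i = {s < T | i ∈ X s}`, `ty j` the same.
The pairs `(i, j)` with `tx i ∩ ty j ≠ ∅` are at most `T * b ^ 2`, and `8 * r * b ≤ n` (as `n / (16 r) ≥ 1`), so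
`4 * T * b ^ 2 ≤ n ^ 2`.
Call `i` good if `inl i ∉ Bad` and at least `2 k` of the `i'` with `inl i' ∉ Bad` have `tx i' = tx i`. At most
`|Bad| ≤ n / 8` are not good because of `Bad`, at most `2 ^ T * (2 k) ≤ n / 8` for the second reason (for each of the
`2 ^ T` types fewer than `2 k`). So at least `3 n / 4` of the `i` are good, same for the `j`, and
`(3 n / 4) ^ 2 > n ^ 2 / 4`: there is a good pair `(i, j)` with `tx i ∩ ty j = ∅`. `S = tx i`; `A`, `B` subsets of
size `2 k` (`Finset.exists_subset_card_eq`) of the classes of `i`, `j`.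
-/

namespace Pool.Agent.Lib_MP_22d2c8_bs

open Finset

/-- the blocks in which the letter `f i` occurs -/
private noncomputable def selOcc {n : ℕ} (f : Fin n → Fin n ⊕ Fin n) (L : List (Fin n ⊕ Fin n)) (b T : ℕ)
    (i : Fin n) : Finset ℕ :=
  open Classical in (range T).filter (fun s => ∃ p : ℕ, p / b = s ∧ L[p]? = some (f i))

private theorem selOcc_fiber {n : ℕ} (f : Fin n → Fin n ⊕ Fin n) (hf : Function.Injective f)
    (L : List (Fin n ⊕ Fin n)) (b T : ℕ) (hb : 0 < b) (s : ℕ) :
    (univ.filter (fun i : Fin n => s ∈ selOcc f L b T i)).card ≤ b := by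
  classical
  have h1 : (univ.filter (fun i : Fin n => s ∈ selOcc f L b T i)).image (fun i => some (f i))
      ⊆ (Ico (s * b) (s * b + b)).image (fun p => L[p]?) := by
    intro x hx
    rw [mem_image] at hx ⊢
    obtain ⟨i, hi, rfl⟩ := hx
    rw [mem_filter] at hi
    have h2 := hi.2
    unfold selOcc at h2
    rw [mem_filter] at h2
    obtain ⟨_, p, hp, hL⟩ := h2
    refine ⟨p, ?_, hL⟩
    rw [mem_Ico]
    subst hp
    constructor
    · exact Nat.div_mul_le_self p b
    · have := Nat.lt_div_mul_add (a := p) hb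
      exact this
  have h3 : ((univ.filter (fun i : Fin n => s ∈ selOcc f L b T i)).image (fun i => some (f i))).card
      = (univ.filter (fun i : Fin n => s ∈ selOcc f L b T i)).card :=
    card_image_of_injective _ (fun a c h => hf (Option.some_injective _ h))
  rw [← h3]
  refine (card_le_card h1).trans (card_image_le.trans ?_)
  rw [Nat.card_Ico]
  omega

private theorem selOcc_pairs {n : ℕ} (f g : Fin n → Fin n ⊕ Fin n) (hf : Function.Injective f)
    (hg : Function.Injective g) (L : List (Fin n ⊕ Fin n)) (b T : ℕ) (hb : 0 < b) (P : Finset (Fin n × Fin n))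
    (hP : ∀ q ∈ P, ¬ Disjoint (selOcc f L b T q.1) (selOcc g L b T q.2)) :
    P.card ≤ T * b ^ 2 := by
  classical
  have h1 : P ⊆ (range T).biUnion (fun s =>
      (univ.filter (fun i : Fin n => s ∈ selOcc f L b T i)) ×ˢ
      (univ.filter (fun i : Fin n => s ∈ selOcc g L b T i))) := by
    intro q hq
    have h2 := hP q hq
    rw [not_disjoint_iff] at h2
    obtain ⟨s, hs1, hs2⟩ := h2
    rw [mem_biUnion]
    refine ⟨s, ?_, ?_⟩
    · unfold selOcc at hs1
      exact (mem_filter.mp hs1).1
    · rw [mem_product, mem_filter, mem_filter]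
      exact ⟨⟨mem_univ _, hs1⟩, ⟨mem_univ _, hs2⟩⟩
  refine (card_le_card h1).trans (card_biUnion_le.trans ?_)
  calc ∑ s ∈ range T, ((univ.filter (fun i : Fin n => s ∈ selOcc f L b T i)) ×ˢ
      (univ.filter (fun i : Fin n => s ∈ selOcc g L b T i))).card
      ≤ ∑ s ∈ range T, b ^ 2 := by
        refine sum_le_sum (fun s _ => ?_)
        rw [card_product, pow_two]
        exact Nat.mul_le_mul (selOcc_fiber f hf L b T hb s) (selOcc_fiber g hg L b T hb s)
    _ = T * b ^ 2 := by rw [sum_const, card_range, smul_eq_mul]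

open Classical in
/-- the class of `i` -/
private noncomputable def selClass {n : ℕ} (f : Fin n → Fin n ⊕ Fin n) (L : List (Fin n ⊕ Fin n)) (b T : ℕ)
    (Bad : Finset (Fin n ⊕ Fin n)) (i : Fin n) : Finset (Fin n) :=
  univ.filter (fun i' => f i' ∉ Bad ∧ selOcc f L b T i' = selOcc f L b T i)

open Classical in
/-- the good indices -/
private noncomputable def selGood {n : ℕ} (f : Fin n → Fin n ⊕ Fin n) (L : List (Fin n ⊕ Fin n)) (b T k : ℕ)
    (Bad : Finset (Fin n ⊕ Fin n)) : Finset (Fin n) :=
  univ.filter (fun i => f i ∉ Bad ∧ 2 * k ≤ (selClass f L b T Bad i).card)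

private theorem selGood_card {n : ℕ} (f : Fin n → Fin n ⊕ Fin n) (hf : Function.Injective f)
    (L : List (Fin n ⊕ Fin n)) (b T k : ℕ) (Bad : Finset (Fin n ⊕ Fin n)) :
    n ≤ (selGood f L b T k Bad).card + (Bad.card + 2 * k * 2 ^ T) := by
  classical
  have h0 : (selGood f L b T k Bad).card + ((selGood f L b T k Bad)ᶜ).card = n := by
    have := card_add_card_compl (selGood f L b T k Bad)
    rw [Fintype.card_fin] at this
    exact this
  have h1 : (selGood f L b T k Bad)ᶜ ⊆ (univ.filter (fun i => f i ∈ Bad)) ∪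
      (univ.filter (fun i => f i ∉ Bad ∧ (selClass f L b T Bad i).card < 2 * k)) := by
    intro i hi
    rw [mem_compl] at hi
    unfold selGood at hi
    rw [mem_filter] at hi
    rw [mem_union, mem_filter, mem_filter]
    by_cases hB : f i ∈ Bad
    · exact Or.inl ⟨mem_univ _, hB⟩
    · right
      refine ⟨mem_univ _, hB, ?_⟩
      by_contra hc
      exact hi ⟨mem_univ _, hB, not_lt.mp hc⟩
  have h2 : (univ.filter (fun i => f i ∈ Bad)).card ≤ Bad.card := by
    refine card_le_card_of_injOn f ?_ hf.injOn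
    intro i hi
    exact (mem_filter.mp hi).2
  have h3 : (univ.filter (fun i => f i ∉ Bad ∧ (selClass f L b T Bad i).card < 2 * k)).card
      ≤ 2 * k * 2 ^ T := by
    have h4 := card_le_mul_card_image_of_maps_to (f := selOcc f L b T)
      (s := univ.filter (fun i => f i ∉ Bad ∧ (selClass f L b T Bad i).card < 2 * k))
      (t := (range T).powerset) (by
        intro i _
        rw [mem_powerset]
        unfold selOcc
        exact filter_subset _ _) (2 * k) (by
        intro t _
        rcases (filter (fun a => selOcc f L b T a = t) (univ.filter (fun i => f i ∉ Bad ∧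
          (selClass f L b T Bad i).card < 2 * k))).eq_empty_or_nonempty with he | ⟨i, hi⟩
        · rw [he]
          simp
        · rw [mem_filter, mem_filter] at hi
          refine le_trans (card_le_card ?_) (le_of_lt hi.1.2.2)
          intro i' hi'
          rw [mem_filter, mem_filter] at hi'
          unfold selClass
          rw [mem_filter]
          exact ⟨mem_univ _, hi'.1.2.1, hi'.2.trans hi.2.symm⟩)
    rw [card_powerset, card_range] at h4
    exact h4
  have h5 := (card_le_card h1).trans (card_union_le _ _)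
  omega

theorem select (n r k : ℕ) (hr : 1 ≤ r) (hn : 16 * r ≤ n)
    (hk : 2 ^ (16 * r ^ 2) * (2 * k) * 8 ≤ n) (L : List (Fin n ⊕ Fin n)) (hL : L.length ≤ r * n)
    (Bad : Finset (Fin n ⊕ Fin n)) (hBad : 8 * Bad.card ≤ n) :
    ∃ (A B : Finset (Fin n)) (S : Finset ℕ), A.card = 2 * k ∧ B.card = 2 * k ∧
      (∀ i ∈ A, Sum.inl i ∉ Bad) ∧ (∀ j ∈ B, Sum.inr j ∉ Bad) ∧
      (∀ p, ∀ hp : p < L.length, ∀ i ∈ A, L[p] = Sum.inl i → p / (n / (16 * r) + 1) ∈ S) ∧
      (∀ p, ∀ hp : p < L.length, ∀ j ∈ B, L[p] = Sum.inr j → p / (n / (16 * r) + 1) ∉ S) := by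
  classical
  obtain ⟨b, hb⟩ : ∃ b, b = n / (16 * r) + 1 := ⟨_, rfl⟩
  obtain ⟨T, hT⟩ : ∃ T, T = 16 * r ^ 2 := ⟨_, rfl⟩
  rw [← hb]
  rw [← hT] at hk
  have hb0 : 0 < b := by rw [hb]; exact Nat.succ_pos _
  have hinl : Function.Injective (Sum.inl : Fin n → Fin n ⊕ Fin n) := Sum.inl_injective
  have hinr : Function.Injective (Sum.inr : Fin n → Fin n ⊕ Fin n) := Sum.inr_injective
  -- arithmetic
  have hdm : 16 * r * (n / (16 * r)) ≤ n := Nat.mul_div_le n (16 * r)
  have hlt : n < 16 * r * b := by
    rw [hb]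
    have := Nat.lt_mul_div_succ n (b := 16 * r) (by omega)
    exact this
  have h8 : 8 * r * b ≤ n := by
    have e : 8 * r * b * 2 = 16 * r * (n / (16 * r)) + 16 * r := by rw [hb]; ring
    omega
  have hTb : r * n ≤ T * b := by
    have e : T * b = r * (16 * r * b) := by rw [hT]; ring
    rw [e]
    exact Nat.mul_le_mul_left _ hlt.le
  have hT2 : 4 * (T * b ^ 2) ≤ n * n := by
    have e : 4 * (T * b ^ 2) = (8 * r * b) * (8 * r * b) := by rw [hT]; ring
    rw [e]
    exact Nat.mul_le_mul h8 h8
  -- positions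
  have hpos : ∀ p, p < L.length → p / b < T := by
    intro p hp
    rw [Nat.div_lt_iff_lt_mul hb0]
    omega
  have hg1 := selGood_card Sum.inl hinl L b T k Bad
  have hg2 := selGood_card Sum.inr hinr L b T k Bad
  have hk' : 8 * (2 * k * 2 ^ T) ≤ n := by
    have e : 8 * (2 * k * 2 ^ T) = 2 ^ T * (2 * k) * 8 := by ring
    rw [e]; exact hk
  have hq1 : 3 * n ≤ 4 * (selGood Sum.inl L b T k Bad).card := by omega
  have hq2 : 3 * n ≤ 4 * (selGood Sum.inr L b T k Bad).card := by omega
  -- a good pair
  have hex : ∃ i ∈ selGood Sum.inl L b T k Bad, ∃ j ∈ selGood Sum.inr L b T k Bad,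
      Disjoint (selOcc Sum.inl L b T i) (selOcc Sum.inr L b T j) := by
    by_contra hcon
    push Not at hcon
    have h1 := selOcc_pairs Sum.inl Sum.inr hinl hinr L b T hb0
      (selGood Sum.inl L b T k Bad ×ˢ selGood Sum.inr L b T k Bad) (by
        intro q hq
        rw [mem_product] at hq
        exact hcon q.1 hq.1 q.2 hq.2)
    rw [card_product] at h1
    have h2 : (3 * n) * (3 * n) ≤ (4 * (selGood Sum.inl L b T k Bad).card) *
        (4 * (selGood Sum.inr L b T k Bad).card) := Nat.mul_le_mul hq1 hq2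
    have h3 : 0 < n * n := Nat.mul_pos (by omega) (by omega)
    nlinarith
  obtain ⟨i, hi, j, hj, hd⟩ := hex
  unfold selGood at hi hj
  rw [mem_filter] at hi hj
  obtain ⟨A, hA, hAc⟩ := exists_subset_card_eq hi.2.2
  obtain ⟨B, hB, hBc⟩ := exists_subset_card_eq hj.2.2
  refine ⟨A, B, selOcc Sum.inl L b T i, hAc, hBc, ?_, ?_, ?_, ?_⟩
  · intro a ha
    have := hA ha
    unfold selClass at this
    exact (mem_filter.mp this).2.1
  · intro a ha
    have := hB ha
    unfold selClass at this
    exact (mem_filter.mp this).2.1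
  · intro p hp a ha hLp
    have h1 := hA ha
    unfold selClass at h1
    rw [← (mem_filter.mp h1).2.2]
    unfold selOcc
    rw [mem_filter, mem_range]
    refine ⟨hpos p hp, p, rfl, ?_⟩
    rw [List.getElem?_eq_getElem hp, hLp]
  · intro p hp a ha hLp hmem
    have h1 := hB ha
    unfold selClass at h1
    have h2 : p / b ∈ selOcc Sum.inr L b T j := by
      rw [← (mem_filter.mp h1).2.2]
      unfold selOcc
      rw [mem_filter, mem_range]
      refine ⟨hpos p hp, p, rfl, ?_⟩
      rw [List.getElem?_eq_getElem hp, hLp]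
    exact (disjoint_left.mp hd hmem) h2

end Pool.Agent.Lib_MP_22d2c8_bs
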