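import Pool.Agent.Lib_MP_22d2c8_bs.Mass

/-!
# BS-Thr: choice of the thresholds

`Gf c d D j a`: if a window `(a, b]` has `b ≥ Gf c d D j a` then the thresholds of the last `j` levels can be
chosen inside it. Proof of `thresholds` by induction on the number `k ≤ d` of levels done:
there are `th`, `a`, `b` with `K + 1 ≤ a`, `th l ≤ a` for `l < k`, `Gf (d - k) a ≤ b ≤ Gf d (K + 1)` and
`8 * d * ∑ |seq th g| ≤ k * n`, sum over the big shared `g` with `lev g < k` and `th (lev g) < |seq g| ≤ b`.
Start: `a = K + 1`, `b = Gf d (K + 1)`, empty sum.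
Step (`k < d`, `d - k = j + 1`): put `a_0 = a`, `a_(i+1) = Gf j (a_i)`, `i < M = 16 * d * c * a + 1`; the `a_i` are
nondecreasing (`le_Gf`) and `a_M = Gf (j+1) a ≤ b`. The masses `m_i` = sum of `|seq th g|` over big shared `g` with
`lev g = k` and `a_i < |seq g| ≤ a_(i+1)`, `i < M`, are over disjoint sets, so their sum is at most
`2 * #bigs * a ≤ 2 * c * n * a` (`mass` with `B = a`). If `8 * d * m_i > n` for all `i < M` then
`M * n ≤ 8 * d * 2 * c * n * a < M * n`. So `8 * d * m_i ≤ n` for some `i`; take `th' = Function.update th k a_i`,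
`a' = a_i`, `b' = a_(i+1) ≤ b`. By `seq_congr` the sequences of the gates with `lev ≤ k` do not change.
At the end (`k = d`): `Gf 0 a = max a (D a) ≤ b`: `θ = a`, `Θ = b`; every big shared gate has `lev g < d`, so
`8 * d * ∑_(mids) |seq g| ≤ d * n`; divide by `d` (for `d = 0` there are no shared gates, the sum is empty).
-/

namespace Pool.Agent.Lib_MP_22d2c8_bs

open Finset

/-- The window function. -/
def Gf (c d : ℕ) (D : ℕ → ℕ) : ℕ → ℕ → ℕ
  | 0 => fun a => max a (D a)
  | j + 1 => fun a => (Gf c d D j)^[16 * d * c * a + 1] a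

theorem le_Gf (c d : ℕ) (D : ℕ → ℕ) (j a : ℕ) : a ≤ Gf c d D j a := by
  induction j generalizing a with
  | zero => exact le_max_left _ _
  | succ j ih =>
    have h : ∀ m x, x ≤ (Gf c d D j)^[m] x := by
      intro m
      induction m with
      | zero => exact fun x => le_rfl
      | succ m ihm =>
        intro x
        rw [Function.iterate_succ_apply']
        exact (ihm x).trans (ih _)
    exact h _ a

private theorem Thr_mono (c d : ℕ) (D : ℕ → ℕ) (j a : ℕ) :
    Monotone fun i => (Gf c d D j)^[i] a := by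
  refine monotone_nat_of_le_succ fun i => ?_
  rw [Function.iterate_succ_apply']
  exact le_Gf c d D j _

namespace Circuit

section

variable {W U : Type} (C : Circuit (W ⊕ U)) (K : ℕ) (lev : C.Gate → ℕ) (th : ℕ → ℕ)

open Classical in
/-- cut gates of the levels below `k` with reading sequences of length at most `b` -/
private noncomputable def Thr_T (k b : ℕ) : Finset C.Gate :=
  univ.filter fun g => C.Big K g ∧ C.Shared K g ∧ lev g < k ∧
    th (lev g) < (C.seq K lev th g).length ∧ (C.seq K lev th g).length ≤ b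

open Classical in
/-- big shared gates of level `k` with reading sequences of length in a window -/
private noncomputable def Thr_N (k lo hi : ℕ) : Finset C.Gate :=
  univ.filter fun g => C.Big K g ∧ C.Shared K g ∧ lev g = k ∧
    lo < (C.seq K lev th g).length ∧ (C.seq K lev th g).length ≤ hi

open Classical in
private theorem Thr_mem_T {k b : ℕ} {g : C.Gate} : g ∈ Thr_T C K lev th k b ↔
    C.Big K g ∧ C.Shared K g ∧ lev g < k ∧
      th (lev g) < (C.seq K lev th g).length ∧ (C.seq K lev th g).length ≤ b := by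
  unfold Thr_T
  exact (@Finset.mem_filter _ _ _ _ _).trans ⟨fun h => h.2, fun h => ⟨Finset.mem_univ _, h⟩⟩

open Classical in
private theorem Thr_mem_N {k lo hi : ℕ} {g : C.Gate} : g ∈ Thr_N C K lev th k lo hi ↔
    C.Big K g ∧ C.Shared K g ∧ lev g = k ∧
      lo < (C.seq K lev th g).length ∧ (C.seq K lev th g).length ≤ hi := by
  unfold Thr_N
  exact (@Finset.mem_filter _ _ _ _ _).trans ⟨fun h => h.2, fun h => ⟨Finset.mem_univ _, h⟩⟩

end

private theorem Thr_pick {W U : Type} (C : Circuit (W ⊕ U)) (K c d n : ℕ) (hn : 0 < n)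
    {lev : C.Gate → ℕ} (hlev : C.IsLev K d lev) (hc : (C.bigs K).card ≤ c * n)
    (th : ℕ → ℕ) (a k : ℕ) (hK : K + 1 ≤ a) (hB : ∀ l < k, th l ≤ a) (s : ℕ → ℕ)
    (hs : Monotone s) :
    ∃ i < 16 * d * c * a + 1, 8 * d *
      ∑ g ∈ Thr_N C K lev th k (s i) (s (i + 1)), (C.seq K lev th g).length ≤ n := by
  classical
  by_contra hcon
  push Not at hcon
  have h1 : ∑ i ∈ Finset.range (16 * d * c * a + 1),
      ∑ g ∈ Thr_N C K lev th k (s i) (s (i + 1)), (C.seq K lev th g).length ≤
      2 * (C.bigs K).card * a := by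
    rw [← Finset.sum_biUnion]
    · refine le_trans (Finset.sum_le_sum_of_subset ?_) (C.mass K hlev th a k hK hB)
      intro g hg
      obtain ⟨i, -, hi⟩ := Finset.mem_biUnion.1 hg
      rw [Thr_mem_N] at hi
      rw [Finset.mem_filter]
      exact ⟨Finset.mem_univ _, hi.1, hi.2.1, hi.2.2.1.le⟩
    · have key : ∀ i j, i < j → Disjoint (Thr_N C K lev th k (s i) (s (i + 1)))
          (Thr_N C K lev th k (s j) (s (j + 1))) := by
        intro i j hij
        rw [Finset.disjoint_left]
        intro g hg hg'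
        rw [Thr_mem_N] at hg hg'
        have h2 : s (i + 1) ≤ s j := hs hij
        have h3 := hg.2.2.2.2
        have h4 := hg'.2.2.2.1
        omega
      intro i _ j _ hij
      rcases lt_or_gt_of_ne hij with h | h
      · exact key i j h
      · exact (key j i h).symm
  have h2 : (16 * d * c * a + 1) * n ≤ ∑ i ∈ Finset.range (16 * d * c * a + 1),
      8 * d * ∑ g ∈ Thr_N C K lev th k (s i) (s (i + 1)), (C.seq K lev th g).length := by
    have h3 := Finset.card_nsmul_le_sum (Finset.range (16 * d * c * a + 1))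
      (fun i => 8 * d * ∑ g ∈ Thr_N C K lev th k (s i) (s (i + 1)),
        (C.seq K lev th g).length) n fun i hi => (hcon i (Finset.mem_range.1 hi)).le
    rwa [Finset.card_range, smul_eq_mul] at h3
  rw [← Finset.mul_sum] at h2
  have h4 : 8 * d * ∑ i ∈ Finset.range (16 * d * c * a + 1),
      ∑ g ∈ Thr_N C K lev th k (s i) (s (i + 1)), (C.seq K lev th g).length ≤
      8 * d * (2 * (c * n) * a) :=
    Nat.mul_le_mul_left _ (h1.trans (Nat.mul_le_mul_right _ (Nat.mul_le_mul_left _ hc)))
  have h5 : 8 * d * (2 * (c * n) * a) = (16 * d * c * a) * n := by ring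
  have h6 : (16 * d * c * a + 1) * n = (16 * d * c * a) * n + n := by ring
  omega

private theorem Thr_levels {W U : Type} (C : Circuit (W ⊕ U)) (K c d n : ℕ) (D : ℕ → ℕ)
    (hn : 0 < n) (lev : C.Gate → ℕ) (hlev : C.IsLev K d lev) (hc : (C.bigs K).card ≤ c * n)
    (k : ℕ) (hk : k ≤ d) :
    ∃ (th : ℕ → ℕ) (a b : ℕ), K + 1 ≤ a ∧ (∀ l < k, th l ≤ a) ∧ Gf c d D (d - k) a ≤ b ∧
      b ≤ Gf c d D d (K + 1) ∧
      8 * d * ∑ g ∈ Thr_T C K lev th k b, (C.seq K lev th g).length ≤ k * n := by
  classical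
  induction k with
  | zero =>
    refine ⟨fun _ => 0, K + 1, Gf c d D d (K + 1), le_rfl, fun l hl => absurd hl (Nat.not_lt_zero _),
      le_rfl, le_rfl, ?_⟩
    rw [Finset.sum_eq_zero, mul_zero]
    · exact Nat.zero_le _
    · intro g hg
      rw [Thr_mem_T] at hg
      exact absurd hg.2.2.1 (Nat.not_lt_zero _)
  | succ k ih =>
    obtain ⟨th, a, b, hKa, hth, hab, hb, hsum⟩ := ih (by omega)
    obtain ⟨j, hj⟩ : ∃ j, d - k = j + 1 := ⟨d - k - 1, by omega⟩
    have hj' : d - (k + 1) = j := by omega
    rw [hj] at hab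
    have hmono := Thr_mono c d D j a
    obtain ⟨i, hi, hpick⟩ := Thr_pick C K c d n hn hlev hc th a k hKa hth
      (fun i => (Gf c d D j)^[i] a) hmono
    have hai : a ≤ (Gf c d D j)^[i] a := hmono (Nat.zero_le i)
    have hib : (Gf c d D j)^[i + 1] a ≤ b := (hmono (show i + 1 ≤ 16 * d * c * a + 1 by omega)).trans hab
    refine ⟨Function.update th k ((Gf c d D j)^[i] a), (Gf c d D j)^[i] a,
      (Gf c d D j)^[i + 1] a, hKa.trans hai, ?_, ?_, hib.trans hb, ?_⟩
    · intro l hl
      by_cases hlk : l = k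
      · subst hlk
        rw [Function.update_self]
      · rw [Function.update_of_ne hlk]
        exact (hth l (by omega)).trans hai
    · rw [hj', Function.iterate_succ_apply']
    · have hseq : ∀ g, C.Big K g → lev g ≤ k →
          C.seq K lev (Function.update th k ((Gf c d D j)^[i] a)) g = C.seq K lev th g := by
        intro g hg hgk
        refine C.seq_congr K hlev k _ _ (fun l hl => ?_) g hg hgk
        rw [Function.update_of_ne (Nat.ne_of_lt hl)]
      have h1 : ∑ g ∈ Thr_T C K lev (Function.update th k ((Gf c d D j)^[i] a)) (k + 1)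
          ((Gf c d D j)^[i + 1] a),
          (C.seq K lev (Function.update th k ((Gf c d D j)^[i] a)) g).length ≤
          ∑ g ∈ Thr_T C K lev th k b, (C.seq K lev th g).length +
          ∑ g ∈ Thr_N C K lev th k ((Gf c d D j)^[i] a) ((Gf c d D j)^[i + 1] a),
            (C.seq K lev th g).length := by
        have h2 : ∑ g ∈ Thr_T C K lev (Function.update th k ((Gf c d D j)^[i] a)) (k + 1)
            ((Gf c d D j)^[i + 1] a),
            (C.seq K lev (Function.update th k ((Gf c d D j)^[i] a)) g).length =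
            ∑ g ∈ Thr_T C K lev (Function.update th k ((Gf c d D j)^[i] a)) (k + 1)
              ((Gf c d D j)^[i + 1] a), (C.seq K lev th g).length := by
          refine Finset.sum_congr rfl fun g hg => ?_
          rw [Thr_mem_T] at hg
          rw [hseq g hg.1 (by omega)]
        rw [h2]
        refine le_trans (Finset.sum_le_sum_of_subset (t := Thr_T C K lev th k b ∪
          Thr_N C K lev th k ((Gf c d D j)^[i] a) ((Gf c d D j)^[i + 1] a)) ?_) ?_
        · intro g hg
          rw [Thr_mem_T] at hg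
          obtain ⟨hg1, hg2, hg3, hg4, hg5⟩ := hg
          rw [hseq g hg1 (by omega)] at hg4 hg5
          rw [Finset.mem_union, Thr_mem_T, Thr_mem_N]
          by_cases hgk : lev g = k
          · right
            rw [hgk, Function.update_self] at hg4
            exact ⟨hg1, hg2, hgk, hg4, hg5⟩
          · left
            rw [Function.update_of_ne hgk] at hg4
            exact ⟨hg1, hg2, by omega, hg4, hg5.trans hib⟩
        · rw [← Finset.sum_union_inter]
          exact Nat.le_add_right _ _
      have h3 := Nat.mul_le_mul_left (8 * d) h1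
      rw [Nat.mul_add] at h3
      calc _ ≤ _ := h3
        _ ≤ k * n + n := Nat.add_le_add hsum hpick
        _ = (k + 1) * n := by ring

theorem thresholds {W U : Type} (C : Circuit (W ⊕ U)) (K c d n : ℕ) (D : ℕ → ℕ) (hn : 0 < n)
    (lev : C.Gate → ℕ) (hlev : C.IsLev K d lev) (hc : (C.bigs K).card ≤ c * n) :
    ∃ (th : ℕ → ℕ) (θ Θ : ℕ), K + 1 ≤ θ ∧ θ ≤ Θ ∧ D θ ≤ Θ ∧ Θ ≤ Gf c d D d (K + 1) ∧
      (∀ l < d, th l ≤ θ) ∧
      8 * ∑ g ∈ C.mids K lev th Θ, (C.seq K lev th g).length ≤ n := by
  classical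
  obtain ⟨th, a, b, hKa, hth, hab, hb, hsum⟩ := Thr_levels C K c d n D hn lev hlev hc d le_rfl
  rw [Nat.sub_self] at hab
  have h1 : max a (D a) ≤ b := hab
  have h2 : ∑ g ∈ C.mids K lev th b, (C.seq K lev th g).length ≤
      ∑ g ∈ Thr_T C K lev th d b, (C.seq K lev th g).length := by
    refine Finset.sum_le_sum_of_subset fun g hg => ?_
    unfold mids at hg
    obtain ⟨-, hg1, hg2, hg3, hg4⟩ := (@Finset.mem_filter _ _ _ _ _).1 hg
    rw [Thr_mem_T]
    exact ⟨hg1, hg2, hlev.2 g hg1 hg2, hg3, hg4⟩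
  refine ⟨th, a, b, hKa, (le_max_left _ _).trans h1, (le_max_right _ _).trans h1, hb, hth, ?_⟩
  rcases Nat.eq_zero_or_pos d with hd | hd
  · have h3 : ∑ g ∈ Thr_T C K lev th d b, (C.seq K lev th g).length = 0 := by
      refine Finset.sum_eq_zero fun g hg => ?_
      rw [Thr_mem_T, hd] at hg
      exact absurd hg.2.2.1 (Nat.not_lt_zero _)
    omega
  · have h3 : d * (8 * ∑ g ∈ C.mids K lev th b, (C.seq K lev th g).length) ≤ d * n := by
      calc d * (8 * ∑ g ∈ C.mids K lev th b, (C.seq K lev th g).length) =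
          8 * d * ∑ g ∈ C.mids K lev th b, (C.seq K lev th g).length := by ring
        _ ≤ 8 * d * ∑ g ∈ Thr_T C K lev th d b, (C.seq K lev th g).length :=
          Nat.mul_le_mul_left _ h2
        _ ≤ d * n := hsum
    exact Nat.le_of_mul_le_mul_left h3 hd

end Circuit

end Pool.Agent.Lib_MP_22d2c8_bs
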