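import Pool.Agent.Lib_MP_22d2c8_bs.Comp

/-!
# BS-Trans: a program whose letters are owned by the two players in few blocks has few rectangles

The positions of `L` are cut into blocks of length `b` (position `p` is in block `p / b`), at most `T`
blocks. In the blocks of `S` the letters do not depend on the second argument, in the other blocks not
on the first. Proof of `corr_bound`: let `σ` be the states, `P s = min (s * b) L.length`, and
`τ (a, b') : Fin T → Fin N`, `τ (a, b') s = σ (P (s + 1)) (a, b')`.
(1) If `τ (a, b) = τ (a', b')` then `σ (P s) (a, b') = σ (P s) (a, b)` for all `s ≤ T`: induction on `s`; in block `s ∈ S`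
the letters seen by `(a, b')` and `(a, b)` agree, so all states in the block agree (inner induction on
the position); in block `s ∉ S` compare with `(a', b')`. Hence `τ (a, b') = τ (a, b)`, and
`G (a, b') = G (a, b)` as `P T = L.length`.
(2) So each fibre of `τ` is a rectangle: with `(a₀, b₀)` in the fibre over `τ₀`,
`Q₁ = {a | ∃ b, τ (a, b) = τ₀}`, `Q₂ = {b | ∃ a, τ (a, b) = τ₀}`, we have `τ (a, b) = τ₀ ↔ a ∈ Q₁ ∧ b ∈ Q₂`, and
`G = G (a₀, b₀)` on it. The sum over the fibre is `∑ φ₁ a * φ₂ b * H a b` with
`φ₁ = g₀ * 1_(Q₁)`, `φ₂ = 1_(Q₂)`, `|g₀| ≤ 1`, so at most `lam` in absolute value (empty fibres: `0 ≤ lam` by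
`hlam` for `φ₁ = φ₂ = 0`).
(3) Sum over the `N ^ T` elements of `Fin T → Fin N` (`Finset.sum_fiberwise` / `Finset.sum_comm`).
-/

namespace Pool.Agent.Lib_MP_22d2c8_bs

open Finset

private theorem trans_block {X W : Type} {rd : X → W → Bool} {L : List W} {σ : ℕ → X → ℕ}
    (h2 : ∀ i, ∀ h : i < L.length, ∀ x y, σ i x = σ i y → rd x L[i] = rd y L[i] →
      σ (i + 1) x = σ (i + 1) y)
    {b : ℕ} (hb : 0 < b) (s : ℕ) (x y : X)
    (h0 : σ (min (s * b) L.length) x = σ (min (s * b) L.length) y)
    (hr : ∀ p, ∀ h : p < L.length, p / b = s → rd x L[p] = rd y L[p]) :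
    σ (min ((s + 1) * b) L.length) x = σ (min ((s + 1) * b) L.length) y := by
  have key : ∀ k, k ≤ b → σ (min (s * b + k) L.length) x = σ (min (s * b + k) L.length) y := by
    intro k
    induction k with
    | zero => intro _; simpa using h0
    | succ k ih =>
      intro hk
      have ih' := ih (by omega)
      by_cases hlt : s * b + k < L.length
      · have e1 : min (s * b + k) L.length = s * b + k := min_eq_left hlt.le
        have e2 : min (s * b + (k + 1)) L.length = s * b + k + 1 := by
          rw [min_eq_left (by omega)]; rfl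
        rw [e2]
        rw [e1] at ih'
        refine h2 _ hlt x y ih' (hr _ hlt ?_)
        rw [Nat.mul_comm, Nat.mul_add_div hb, Nat.div_eq_of_lt (by omega), add_zero]
      · have e1 : min (s * b + k) L.length = L.length := min_eq_right (by omega)
        have e2 : min (s * b + (k + 1)) L.length = L.length := min_eq_right (by omega)
        rw [e2]
        rw [e1] at ih'
        exact ih'
  have h := key b le_rfl
  rwa [Nat.succ_mul]

private theorem trans_cross {α β W : Type} {rd : α × β → W → Bool} {L : List W}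
    {σ : ℕ → α × β → ℕ} {b T : ℕ} (hb : 0 < b)
    (h1 : ∀ x y, σ 0 x = σ 0 y)
    (h2 : ∀ i, ∀ h : i < L.length, ∀ x y, σ i x = σ i y → rd x L[i] = rd y L[i] →
      σ (i + 1) x = σ (i + 1) y)
    {S : Finset ℕ}
    (hA : ∀ p, ∀ h : p < L.length, p / b ∈ S → ∀ a c c', rd (a, c) L[p] = rd (a, c') L[p])
    (hB : ∀ p, ∀ h : p < L.length, p / b ∉ S → ∀ a a' c, rd (a, c) L[p] = rd (a', c) L[p])
    (a a' : α) (c c' : β)
    (hτ : ∀ s < T, σ (min ((s + 1) * b) L.length) (a, c) = σ (min ((s + 1) * b) L.length) (a', c')) :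
    ∀ s ≤ T, σ (min (s * b) L.length) (a, c') = σ (min (s * b) L.length) (a, c) := by
  intro s
  induction s with
  | zero => intro _; simpa using h1 _ _
  | succ s ih =>
    intro hs
    have ih' := ih (by omega)
    by_cases hS : s ∈ S
    · refine trans_block h2 hb s _ _ ih' ?_
      intro p hp hps
      exact hA p hp (by rw [hps]; exact hS) a c' c
    · have e : σ (min (s * b) L.length) (a, c) = σ (min (s * b) L.length) (a', c') := by
        rcases Nat.eq_zero_or_pos s with h | h
        · subst h
          simpa using h1 _ _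
        · have := hτ (s - 1) (by omega)
          rwa [Nat.sub_add_cancel h] at this
      rw [hτ s (by omega)]
      refine trans_block h2 hb s _ _ (ih'.trans e) ?_
      intro p hp hps
      exact hB p hp (by rw [hps]; exact hS) a a' c'

theorem corr_bound {α β W : Type} [Fintype α] [Fintype β] (rd : α × β → W → Bool) (L : List W)
    (N b T : ℕ) (hb : 0 < b) (hT : L.length ≤ T * b) (G : α × β → Bool × Bool)
    (hG : Comp rd L N G) (S : Finset ℕ)
    (hA : ∀ p, ∀ h : p < L.length, p / b ∈ S → ∀ a c c', rd (a, c) L[p] = rd (a, c') L[p])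
    (hB : ∀ p, ∀ h : p < L.length, p / b ∉ S → ∀ a a' c, rd (a, c) L[p] = rd (a', c) L[p])
    (H : α → β → ℝ) (lam : ℝ)
    (hlam : ∀ (φ₁ : α → ℝ) (φ₂ : β → ℝ), (∀ a, |φ₁ a| ≤ 1) → (∀ c, |φ₂ c| ≤ 1) →
      |∑ a, ∑ c, φ₁ a * φ₂ c * H a c| ≤ lam) :
    |∑ a, ∑ c, (if (G (a, c)).1 then sgn (G (a, c)).2 else 0) * H a c| ≤ (N : ℝ) ^ T * lam := by
  classical
  obtain ⟨σ, h0, h1, h2, h3⟩ := hG
  set τ : α × β → (Fin T → Fin N) := fun x s => ⟨σ (min ((s.1 + 1) * b) L.length) x, h0 _ _⟩ with hτ
  have τval : ∀ x y, τ x = τ y ↔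
      ∀ s < T, σ (min ((s + 1) * b) L.length) x = σ (min ((s + 1) * b) L.length) y := by
    intro x y
    constructor
    · intro h s hs
      have := congrFun h ⟨s, hs⟩
      simpa [hτ] using this
    · intro h
      funext s
      apply Fin.ext
      exact h s.1 s.2
  have hPT : min (T * b) L.length = L.length := min_eq_right hT
  have τG : ∀ x y, τ x = τ y → G x = G y := by
    intro x y h
    apply h3
    rcases Nat.eq_zero_or_pos T with hT0 | hT0
    · have : L.length = 0 := by
        subst hT0
        simpa using hT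
      rw [this]
      exact h1 _ _
    · have := (τval x y).1 h (T - 1) (by omega)
      rwa [Nat.sub_add_cancel hT0, hPT] at this
  have cross : ∀ a a' c c', τ (a, c) = τ (a', c') → τ (a, c') = τ (a, c) := by
    intro a a' c c' h
    rw [τval]
    intro s hs
    exact trans_cross hb h1 h2 hA hB a a' c c' ((τval _ _).1 h) (s + 1) (by omega)
  have hlam0 : 0 ≤ lam := by
    have := hlam (fun _ => 0) (fun _ => 0) (by simp) (by simp)
    simpa using this
  set F : α × β → ℝ := fun x => if (G x).1 then sgn (G x).2 else 0 with hF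
  have hF1 : ∀ x, |F x| ≤ 1 := by
    intro x
    simp only [hF, sgn]
    split_ifs <;> simp
  have hsplit : ∑ a, ∑ c, F (a, c) * H a c =
      ∑ t : Fin T → Fin N, ∑ a, ∑ c, (if τ (a, c) = t then F (a, c) * H a c else 0) := by
    symm
    rw [Finset.sum_comm]
    refine Finset.sum_congr rfl fun a _ => ?_
    rw [Finset.sum_comm]
    refine Finset.sum_congr rfl fun c _ => ?_
    simp
  change |∑ a, ∑ c, F (a, c) * H a c| ≤ (N : ℝ) ^ T * lam
  rw [hsplit]
  refine (Finset.abs_sum_le_sum_abs _ _).trans ?_
  have hcard : (N : ℝ) ^ T * lam = ∑ _t : Fin T → Fin N, lam := by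
    simp
  rw [hcard]
  refine Finset.sum_le_sum fun t _ => ?_
  by_cases hne : ∃ x, τ x = t
  · obtain ⟨x₀, hx₀⟩ := hne
    have hiff : ∀ a c, τ (a, c) = t ↔ (∃ c', τ (a, c') = t) ∧ (∃ a', τ (a', c) = t) := by
      intro a c
      constructor
      · intro h
        exact ⟨⟨c, h⟩, ⟨a, h⟩⟩
      · rintro ⟨⟨c', hc'⟩, ⟨a', ha'⟩⟩
        have := cross a a' c' c (hc'.trans ha'.symm)
        exact this.trans hc'
    have hval : ∀ a c, (if τ (a, c) = t then F (a, c) * H a c else 0) =
        (if ∃ c', τ (a, c') = t then F x₀ else 0) * (if ∃ a', τ (a', c) = t then 1 else 0) *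
          H a c := by
      intro a c
      by_cases h : τ (a, c) = t
      · have h' := (hiff a c).1 h
        rw [if_pos h, if_pos h'.1, if_pos h'.2, mul_one]
        have : G (a, c) = G x₀ := τG _ _ (h.trans hx₀.symm)
        simp only [hF, this]
      · rw [if_neg h]
        have h' : ¬ ((∃ c', τ (a, c') = t) ∧ (∃ a', τ (a', c) = t)) := fun h' => h ((hiff a c).2 h')
        by_cases h1' : ∃ c', τ (a, c') = t
        · have h2' : ¬ ∃ a', τ (a', c) = t := fun h2' => h' ⟨h1', h2'⟩
          rw [if_neg h2']
          simp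
        · rw [if_neg h1']
          simp
    simp only [hval]
    apply hlam
    · intro a
      split_ifs
      · exact hF1 _
      · simp
    · intro c
      split_ifs <;> simp
  · have hz : ∀ a c, (if τ (a, c) = t then F (a, c) * H a c else 0) = 0 := by
      intro a c
      exact if_neg fun h => hne ⟨_, h⟩
    simp only [hz]
    simpa using hlam0

end Pool.Agent.Lib_MP_22d2c8_bs
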