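import Pool.Agent.Lib_MP_22d2c8_bs.Guess
import Pool.Agent.Lib_MP_22d2c8_bs.Eval
import Pool.Agent.Lib_MP_22d2c8_bs.Trans
import Pool.Agent.Lib_MP_22d2c8_bs.Kernel
import Pool.Agent.Lib_MP_22d2c8_bs.Swap
import Pool.Agent.Lib_MP_22d2c8_bs.Thr
import Pool.Agent.Lib_MP_22d2c8_bs.Select
import Pool.Agent.Lib_MP_22d2c8_bs.Lev

/-!
# BS-Core: the correlation bound for given thresholds
-/

namespace Pool.Agent.Lib_MP_22d2c8_bs

open Finset

/-- summation over all inputs of a function of the bits `t` only -/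
private theorem Core_sum_t {n : ℕ} (f : (Fin (2 * n - 1) → Bool) → ℝ) :
    ∑ w : Inp n → Bool, f (fun u => w (Sum.inr u)) = 2 ^ (2 * n) * ∑ t, f t := by
  rw [← (Equiv.sumArrowEquivProdArrow (Fin n ⊕ Fin n) (Fin (2 * n - 1)) Bool).symm.sum_comp]
  rw [Fintype.sum_prod_type]
  have h : ∀ (p : Fin n ⊕ Fin n → Bool) (t : Fin (2 * n - 1) → Bool),
      f (fun u => (Equiv.sumArrowEquivProdArrow (Fin n ⊕ Fin n) (Fin (2 * n - 1)) Bool).symm
        (p, t) (Sum.inr u)) = f t := by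
    intro p t
    rfl
  simp only [h, Finset.sum_const, Finset.card_univ, nsmul_eq_mul]
  congr 1
  simp [two_mul]

namespace Circuit

section

variable {n : ℕ} (C : Circuit (Inp n)) (K : ℕ) (lev : C.Gate → ℕ) (th : ℕ → ℕ) (Θ : ℕ)

/-- the list that is read -/
private noncomputable def Core_L : List (Fin n ⊕ Fin n) :=
  (C.larges K lev th Θ).toList.flatMap (C.seq K lev th) ++ C.rseq K lev th C.out

private theorem Core_length : (Core_L C K lev th Θ).length =
    ∑ g ∈ C.larges K lev th Θ, (C.seq K lev th g).length + (C.rseq K lev th C.out).length := by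
  unfold Core_L
  rw [List.length_append, List.length_flatMap, Finset.sum_map_toList]

private theorem Core_len_le {c d r θ : ℕ} (hlev : C.IsLev K d lev) (hc : (C.bigs K).card ≤ c * n)
    (hK : K + 1 ≤ θ) (hth : ∀ l < d, th l ≤ θ) (hr : r = (2 * c + 1) * θ) (hn : 0 < n) :
    (Core_L C K lev th Θ).length ≤ r * n := by
  classical
  rw [Core_length]
  have h1 : ∑ g ∈ C.larges K lev th Θ, (C.seq K lev th g).length ≤
      ∑ g ∈ univ.filter (fun g => C.Big K g ∧ C.Shared K g), (C.seq K lev th g).length := by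
    refine Finset.sum_le_sum_of_subset ?_
    intro g hg
    unfold larges at hg
    rw [Finset.mem_filter] at hg ⊢
    exact ⟨hg.1, hg.2.1, hg.2.2.1⟩
  have h2 := C.mass_out K hlev th θ hK hth
  have h3 : 2 * (C.bigs K).card * θ ≤ 2 * (c * n) * θ :=
    Nat.mul_le_mul_right _ (Nat.mul_le_mul_left _ hc)
  have h4 : K ≤ θ * n := le_trans (by omega) (Nat.le_mul_of_pos_right θ hn)
  have h5 : r * n = 2 * (c * n) * θ + θ * n := by
    rw [hr]
    ring
  omega

open Classical in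
private theorem Core_w {r k : ℕ} (hr1 : 1 ≤ r) (hn : 16 * r ≤ n)
    (hL : (Core_L C K lev th Θ).length ≤ r * n) (A B : Finset (Fin n)) (S : Finset ℕ)
    (hA : ∀ i ∈ A, ∀ h ∈ C.mids K lev th Θ, Sum.inl i ∉ C.seq K lev th h)
    (hB : ∀ j ∈ B, ∀ h ∈ C.mids K lev th Θ, Sum.inr j ∉ C.seq K lev th h)
    (hSA : ∀ p, ∀ hp : p < (Core_L C K lev th Θ).length, ∀ i ∈ A,
      (Core_L C K lev th Θ)[p] = Sum.inl i → p / (n / (16 * r) + 1) ∈ S)
    (hSB : ∀ p, ∀ hp : p < (Core_L C K lev th Θ).length, ∀ j ∈ B,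
      (Core_L C K lev th Θ)[p] = Sum.inr j → p / (n / (16 * r) + 1) ∉ S)
    (w : Inp n → Bool) :
    |∑ a, ∑ b, sgn (C.val (ext A B w a b) C.out) * sgn (hank (ext A B w a b))| ≤
      2 ^ (C.larges K lev th Θ).card *
        (((2 ^ (K + 2) * (r * n + 1) : ℕ) : ℝ) ^ (16 * r ^ 2) *
          Real.sqrt (2 ^ (3 * n) * (kap A B (fun u => w (Sum.inr u)) : ℝ))) := by
  -- the hypotheses of the correlation bound
  set lam : ℝ := Real.sqrt (2 ^ (3 * n) * (kap A B (fun u => w (Sum.inr u)) : ℝ)) with hlamdef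
  set H : (Fin n → Bool) → (Fin n → Bool) → ℝ := fun a b => sgn (hank (ext A B w a b)) with hH
  have hlam : ∀ (φ₁ φ₂ : (Fin n → Bool) → ℝ), (∀ a, |φ₁ a| ≤ 1) → (∀ c, |φ₂ c| ≤ 1) →
      |∑ a, ∑ c, φ₁ a * φ₂ c * H a c| ≤ lam := by
    intro φ₁ φ₂ h₁ h₂
    obtain ⟨ψ₁, ψ₂, g₁, g₂, g⟩ := hank_ext A B w
    have e : ∀ a c, φ₁ a * φ₂ c * H a c =
        (φ₁ a * ψ₁ a) * (φ₂ c * ψ₂ c) * chi (bil A B (fun u => w (Sum.inr u)) a c) := by
      intro a c
      rw [hH]
      simp only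
      rw [g]
      ring
    simp only [e]
    refine Real.abs_le_sqrt ?_
    refine rect A B _ (fun a => φ₁ a * ψ₁ a) (fun c => φ₂ c * ψ₂ c) ?_ ?_
    · intro a
      rw [abs_mul]
      exact mul_le_one₀ (h₁ a) (abs_nonneg _) (g₁ a)
    · intro c
      rw [abs_mul]
      exact mul_le_one₀ (h₂ c) (abs_nonneg _) (g₂ c)
  let Act : Set (Fin n ⊕ Fin n) := {v | (∃ i ∈ A, v = Sum.inl i) ∨ ∃ j ∈ B, v = Sum.inr j}
  let e : (Fin n → Bool) × (Fin n → Bool) → Inp n → Bool := fun x => ext A B w x.1 x.2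
  have hU : ∀ x y u, e x (Sum.inr u) = e y (Sum.inr u) := fun x y u => rfl
  have hW : ∀ v, v ∉ Act → ∀ x y, e x (Sum.inl v) = e y (Sum.inl v) := by
    intro v hv x y
    rcases v with i | j
    · have hi : i ∉ A := fun h => hv (Or.inl ⟨i, h, rfl⟩)
      show (if i ∈ A then x.1 i else w (Sum.inl (Sum.inl i))) =
        (if i ∈ A then y.1 i else w (Sum.inl (Sum.inl i)))
      rw [if_neg hi, if_neg hi]
    · have hj : j ∉ B := fun h => hv (Or.inr ⟨j, h, rfl⟩)
      show (if j ∈ B then x.2 j else w (Sum.inl (Sum.inr j))) =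
        (if j ∈ B then y.2 j else w (Sum.inl (Sum.inr j)))
      rw [if_neg hj, if_neg hj]
  have hmid : ∀ h ∈ C.mids K lev th Θ, ∀ v ∈ C.seq K lev th h, v ∉ Act := by
    rintro h hh v hv (⟨i, hi, rfl⟩ | ⟨j, hj, rfl⟩)
    · exact hA i hi h hh hv
    · exact hB j hj h hh hv
  have hlen := Core_length C K lev th Θ
  have hR : ∀ g ∈ (C.larges K lev th Θ).toList, (C.seq K lev th g).length ≤ r * n := by
    intro g hg
    rw [Finset.mem_toList] at hg
    have h1 : (C.seq K lev th g).length ≤ ∑ g ∈ C.larges K lev th Θ, (C.seq K lev th g).length :=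
      Finset.single_le_sum (f := fun g => (C.seq K lev th g).length) (fun _ _ => Nat.zero_le _) hg
    omega
  have hRo : (C.rseq K lev th C.out).length ≤ r * n := by omega
  have hbpos : 0 < n / (16 * r) + 1 := Nat.succ_pos _
  have hT : (Core_L C K lev th Θ).length ≤ 16 * r ^ 2 * (n / (16 * r) + 1) := by
    refine hL.trans ?_
    have h1 : n < 16 * r * (n / (16 * r) + 1) := by
      have h2 := Nat.lt_mul_div_succ n (show 0 < 16 * r by omega)
      exact h2
    calc r * n ≤ r * (16 * r * (n / (16 * r) + 1)) := Nat.mul_le_mul_left _ h1.le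
      _ = 16 * r ^ 2 * (n / (16 * r) + 1) := by ring
  -- the bound for one guess
  have key : ∀ Z ∈ (C.larges K lev th Θ).powerset,
      |∑ a, ∑ c, (if ∀ g ∈ C.larges K lev th Θ,
          C.gval K lev th Θ (fun h => decide (h ∈ Z)) (ext A B w a c) g = decide (g ∈ Z)
        then sgn (C.rval K lev th Θ (fun h => decide (h ∈ Z)) (ext A B w a c) C.out) else 0) *
          H a c| ≤ ((2 ^ (K + 2) * (r * n + 1) : ℕ) : ℝ) ^ (16 * r ^ 2) * lam := by
    intro Z _
    have hG := C.comp_chain K lev th Θ e Act hU hW hmid (fun h => decide (h ∈ Z))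
      (C.larges K lev th Θ).toList C.out (r * n) hR hRo
    have hb := corr_bound (fun (x : (Fin n → Bool) × (Fin n → Bool)) v => e x (Sum.inl v))
      (Core_L C K lev th Θ) (2 ^ (K + 2) * (r * n + 1)) (n / (16 * r) + 1) (16 * r ^ 2) hbpos hT
      _ hG S ?_ ?_ H lam hlam
    · convert hb using 5 with a _ c _
      simp only [Finset.mem_toList, decide_eq_true_eq]
      rfl
    · intro p hp hpS a c c'
      rcases hv : (Core_L C K lev th Θ)[p] with i | j
      · rfl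
      · have hj : j ∉ B := fun h => hSB p hp j h hv hpS
        show (if j ∈ B then c j else w (Sum.inl (Sum.inr j))) =
          (if j ∈ B then c' j else w (Sum.inl (Sum.inr j)))
        rw [if_neg hj, if_neg hj]
    · intro p hp hpS a a' c
      rcases hv : (Core_L C K lev th Θ)[p] with i | j
      · have hi : i ∉ A := fun h => hpS (hSA p hp i h hv)
        show (if i ∈ A then a i else w (Sum.inl (Sum.inl i))) =
          (if i ∈ A then a' i else w (Sum.inl (Sum.inl i)))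
        rw [if_neg hi, if_neg hi]
      · rfl
  have hsum : ∑ a, ∑ b, sgn (C.val (ext A B w a b) C.out) * sgn (hank (ext A B w a b)) =
      ∑ Z ∈ (C.larges K lev th Θ).powerset, ∑ a, ∑ c, (if ∀ g ∈ C.larges K lev th Θ,
          C.gval K lev th Θ (fun h => decide (h ∈ Z)) (ext A B w a c) g = decide (g ∈ Z)
        then sgn (C.rval K lev th Θ (fun h => decide (h ∈ Z)) (ext A B w a c) C.out) else 0) *
          H a c := by
    symm
    rw [Finset.sum_comm]
    refine Finset.sum_congr rfl fun a _ => ?_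
    rw [Finset.sum_comm]
    refine Finset.sum_congr rfl fun c _ => ?_
    rw [← Finset.sum_mul, ← C.guess_sum K lev th Θ (ext A B w a c) C.out]
  rw [hsum]
  refine (Finset.abs_sum_le_sum_abs _ _).trans ((Finset.sum_le_sum key).trans ?_)
  rw [Finset.sum_const, Finset.card_powerset, nsmul_eq_mul]
  push_cast
  exact le_rfl

end

theorem core {n : ℕ} (C : Circuit (Inp n)) (K c d r k : ℕ) (lev : C.Gate → ℕ)
    (hlev : C.IsLev K d lev) (hc : (C.bigs K).card ≤ c * n) (th : ℕ → ℕ) (θ Θ : ℕ)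
    (hK : K + 1 ≤ θ) (hth : ∀ l < d, th l ≤ θ)
    (hmid : 8 * ∑ g ∈ C.mids K lev th Θ, (C.seq K lev th g).length ≤ n)
    (hr : r = (2 * c + 1) * θ) (hn : 16 * r ≤ n) (hk : 2 ^ (16 * r ^ 2) * (2 * k) * 8 ≤ n) :
    Θ * (C.larges K lev th Θ).card ≤ r * n ∧
    (∑ x : Inp n → Bool, sgn (C.val x C.out) * sgn (hank x)) ^ 2 * 2 ^ (2 * k) ≤
      (2 ^ (C.larges K lev th Θ).card * ((2 ^ (K + 2) * (r * n + 1) : ℕ) : ℝ) ^ (16 * r ^ 2)) ^ 2 *
        2 * (2 ^ (4 * n - 1)) ^ 2 := by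
  classical
  have hθ : 1 ≤ θ := by omega
  have hr1 : 1 ≤ r := by
    rw [hr]
    exact Nat.mul_pos (Nat.succ_pos _) hθ
  have hn0 : 0 < n := by omega
  have hL := Core_len_le C K lev th Θ hlev hc hK hth hr hn0
  have hlen := Core_length C K lev th Θ
  refine ⟨?_, ?_⟩
  · have h1 : (C.larges K lev th Θ).card • Θ ≤
        ∑ g ∈ C.larges K lev th Θ, (C.seq K lev th g).length := by
      refine Finset.card_nsmul_le_sum _ _ _ fun g hg => ?_
      unfold larges at hg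
      rw [Finset.mem_filter] at hg
      exact hg.2.2.2.2.le
    rw [smul_eq_mul, mul_comm] at h1
    omega
  -- the selection
  let Bad : Finset (Fin n ⊕ Fin n) :=
    (C.mids K lev th Θ).biUnion fun g => (C.seq K lev th g).toFinset
  have hBad : 8 * Bad.card ≤ n := by
    refine le_trans (Nat.mul_le_mul_left 8 ?_) hmid
    refine Finset.card_biUnion_le.trans (Finset.sum_le_sum fun g _ => ?_)
    exact List.toFinset_card_le _
  obtain ⟨A, B, S, hA2, hB2, hAb, hBb, hSA, hSB⟩ :=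
    select n r k hr1 hn hk (Core_L C K lev th Θ) hL Bad hBad
  have hA : ∀ i ∈ A, ∀ h ∈ C.mids K lev th Θ, Sum.inl i ∉ C.seq K lev th h := by
    intro i hi h hh hv
    exact hAb i hi (Finset.mem_biUnion.2 ⟨h, hh, List.mem_toFinset.2 hv⟩)
  have hB : ∀ j ∈ B, ∀ h ∈ C.mids K lev th Θ, Sum.inr j ∉ C.seq K lev th h := by
    intro j hj h hh hv
    exact hBb j hj (Finset.mem_biUnion.2 ⟨h, hh, List.mem_toFinset.2 hv⟩)
  have hw := Core_w C K lev th Θ (k := k) hr1 hn hL A B S hA hB hSA hSB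
  set P : ℝ := 2 ^ (C.larges K lev th Θ).card *
    ((2 ^ (K + 2) * (r * n + 1) : ℕ) : ℝ) ^ (16 * r ^ 2) with hP
  have hP0 : 0 ≤ P := by positivity
  set s : ℝ := ∑ x : Inp n → Bool, sgn (C.val x C.out) * sgn (hank x) with hs
  set q : (Inp n → Bool) → ℝ := fun w =>
    Real.sqrt (2 ^ (3 * n) * (kap A B (fun u => w (Sum.inr u)) : ℝ)) with hq
  have h1 : |2 ^ (2 * n) * s| ≤ P * ∑ w, q w := by
    rw [hs, ← swap_sum A B (fun x => sgn (C.val x C.out) * sgn (hank x)), Finset.mul_sum]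
    refine (Finset.abs_sum_le_sum_abs _ _).trans (Finset.sum_le_sum fun w _ => ?_)
    refine (hw w).trans (le_of_eq ?_)
    rw [hP, hq]
    ring
  have h2 : (∑ w, q w) ^ 2 ≤ 2 ^ (4 * n - 1) * (2 ^ (3 * n) * (2 ^ (2 * n) * ∑ t, (kap A B t : ℝ))) := by
    have h3 := sq_sum_le_card_mul_sum_sq (s := (univ : Finset (Inp n → Bool))) (f := q)
    have h4 : ∑ w, q w ^ 2 = 2 ^ (3 * n) * (2 ^ (2 * n) * ∑ t, (kap A B t : ℝ)) := by
      rw [← Core_sum_t (fun t => (kap A B t : ℝ)), Finset.mul_sum]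
      refine Finset.sum_congr rfl fun w _ => ?_
      rw [hq]
      exact Real.sq_sqrt (by positivity)
    have h5 : ((univ : Finset (Inp n → Bool)).card : ℝ) = 2 ^ (4 * n - 1) := by
      rw [Finset.card_univ, Fintype.card_fun, Fintype.card_bool]
      have h6 : Fintype.card (Inp n) = 4 * n - 1 := by
        simp only [Inp, Fintype.card_sum, Fintype.card_fin]
        omega
      rw [h6]
      push_cast
      rfl
    rw [h4, h5] at h3
    exact h3
  have h7 : (2 : ℝ) ^ (2 * k) * ∑ t, (kap A B t : ℝ) ≤ 2 * 2 ^ n * 2 ^ (2 * n - 1) := by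
    have h8 := kap_sum A B (hA2.trans hB2.symm)
    rw [hA2] at h8
    exact_mod_cast h8
  have h9 : (2 ^ (2 * n) * s) ^ 2 ≤ P ^ 2 * (∑ w, q w) ^ 2 := by
    rw [← sq_abs, ← mul_pow]
    exact pow_le_pow_left₀ (abs_nonneg _) h1 2
  have e1 : (2 : ℝ) ^ (4 * n - 1) * 2 = 2 ^ (4 * n) := by
    rw [← pow_succ]
    congr 1
    omega
  have e2 : (2 : ℝ) ^ (2 * n - 1) * 2 = 2 ^ (2 * n) := by
    rw [← pow_succ]
    congr 1
    omega
  have h10 : (2 ^ (2 * n)) ^ 2 * (s ^ 2 * 2 ^ (2 * k)) ≤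
      (2 ^ (2 * n)) ^ 2 * (P ^ 2 * 2 * (2 ^ (4 * n - 1)) ^ 2) := by
    calc (2 ^ (2 * n)) ^ 2 * (s ^ 2 * 2 ^ (2 * k)) = (2 ^ (2 * n) * s) ^ 2 * 2 ^ (2 * k) := by ring
      _ ≤ P ^ 2 * (∑ w, q w) ^ 2 * 2 ^ (2 * k) := by gcongr
      _ ≤ P ^ 2 * (2 ^ (4 * n - 1) * (2 ^ (3 * n) * (2 ^ (2 * n) * ∑ t, (kap A B t : ℝ)))) *
          2 ^ (2 * k) := by gcongr
      _ = P ^ 2 * 2 ^ (4 * n - 1) * 2 ^ (3 * n) * 2 ^ (2 * n) *
          (2 ^ (2 * k) * ∑ t, (kap A B t : ℝ)) := by ring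
      _ ≤ P ^ 2 * 2 ^ (4 * n - 1) * 2 ^ (3 * n) * 2 ^ (2 * n) *
          (2 * 2 ^ n * 2 ^ (2 * n - 1)) := by gcongr
      _ = P ^ 2 * 2 ^ (4 * n - 1) * (2 ^ (3 * n) * 2 ^ n * 2 ^ (2 * n) * (2 ^ (2 * n - 1) * 2)) := by
          ring
      _ = P ^ 2 * 2 ^ (4 * n - 1) * (2 ^ (4 * n) * 2 ^ (4 * n)) := by
          rw [e2]
          ring
      _ = P ^ 2 * 2 ^ (4 * n - 1) * (2 ^ (4 * n) * (2 ^ (4 * n - 1) * 2)) := by rw [e1]
      _ = (2 ^ (2 * n)) ^ 2 * (P ^ 2 * 2 * (2 ^ (4 * n - 1)) ^ 2) := by ring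
  exact le_of_mul_le_mul_left h10 (by positivity)

end Circuit

end Pool.Agent.Lib_MP_22d2c8_bs
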