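import Mathlib

/-!
# Circuits over the full binary basis, sharing depth, and the hard function
-/

namespace Pool.Agent.Lib_MP_22d2c8_bs

open Finset

/-- A Boolean circuit over the full binary basis with input variables `V`. The gates are numbered
`0, ..., m`; gate `g` applies the binary operation `op g` to two sources, each an input variable or
an earlier gate. Input variables may be read any number of times. The last gate is the output. -/
structure Circuit (V : Type) where
  m : ℕ
  op : Fin (m + 1) → Bool → Bool → Bool
  src : Fin (m + 1) → Bool → V ⊕ Fin (m + 1)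
  src_lt : ∀ g s h, src g s = Sum.inr h → h < g

namespace Circuit

variable {V : Type} (C : Circuit V)

/-- The gates. -/
abbrev Gate : Type := Fin (C.m + 1)

/-- The output gate. -/
def out : C.Gate := Fin.last C.m

/-- What a source looks like, given the inputs `inp`, and `F` for the gates, seen through `ref`. -/
def look {β : Type*} (inp : V → β) (ref : C.Gate → β → β) (F : C.Gate → β) :
    V ⊕ C.Gate → β
  | Sum.inl v => inp v
  | Sum.inr h => ref h (F h)

/-- Recursion along the circuit: `fold g` is obtained from what its two sources look like. -/
def fold {β : Type*} (inp : V → β) (ref : C.Gate → β → β) (node : C.Gate → β → β → β)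
    (g : C.Gate) : β :=
  node g
    (match _e : C.src g false with
      | Sum.inl v => inp v
      | Sum.inr h => ref h (fold inp ref node h))
    (match _e : C.src g true with
      | Sum.inl v => inp v
      | Sum.inr h => ref h (fold inp ref node h))
termination_by g.val
decreasing_by
  · exact C.src_lt g false h _e
  · exact C.src_lt g true h _e

theorem fold_eq {β : Type*} (inp : V → β) (ref : C.Gate → β → β) (node : C.Gate → β → β → β)
    (g : C.Gate) :
    C.fold inp ref node g =
      node g (C.look inp ref (C.fold inp ref node) (C.src g false))
        (C.look inp ref (C.fold inp ref node) (C.src g true)) := by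
  rw [fold]
  congr 1
  · split <;> rename_i e <;> rw [e] <;> rfl
  · split <;> rename_i e <;> rw [e] <;> rfl

/-- The value of gate `g` on the input `x`. -/
def val (x : V → Bool) : C.Gate → Bool :=
  C.fold x (fun _ b => b) C.op

/-- The value of a source on the input `x`. -/
def srcVal (x : V → Bool) : V ⊕ C.Gate → Bool
  | Sum.inl v => x v
  | Sum.inr h => C.val x h

/-- The value of a gate is the operation of the gate applied to the values of its sources. -/
theorem val_eq (x : V → Bool) (g : C.Gate) :
    C.val x g = C.op g (C.srcVal x (C.src g false)) (C.srcVal x (C.src g true)) := by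
  have h : ∀ s : V ⊕ C.Gate, C.look x (fun _ b => b) (C.fold x (fun _ b => b) C.op) s =
      C.srcVal x s := by
    intro s
    cases s <;> rfl
  rw [val, fold_eq, h, h]

end Circuit

namespace Circuit

variable {W U : Type} (C : Circuit (W ⊕ U))

/-- The value of gate `g` depends on at most `K` of the input bits in `W` (and on any number of the
input bits in `U`). -/
def Small (K : ℕ) (g : C.Gate) : Prop :=
  ∃ S : Finset W, S.card ≤ K ∧ ∀ x x' : W ⊕ U → Bool,
    (∀ v ∈ S, x (Sum.inl v) = x' (Sum.inl v)) → (∀ u, x (Sum.inr u) = x' (Sum.inr u)) →
      C.val x g = C.val x' g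

/-- The value of gate `g` depends on more than `K` of the input bits in `W`. -/
def Big (K : ℕ) (g : C.Gate) : Prop := ¬ C.Small K g

open Classical in
/-- The big gates. -/
noncomputable def bigs (K : ℕ) : Finset C.Gate := univ.filter fun g => C.Big K g

open Classical in
/-- Gate `h` is shared: it is read at least twice by big gates. -/
def Shared (K : ℕ) (h : C.Gate) : Prop :=
  2 ≤ (univ.filter fun p : C.Gate × Bool => C.Big K p.1 ∧ C.src p.1 p.2 = Sum.inr h).card

/-- A directed path of big gates: each gate is a source of the next one. -/
def IsBigPath (K : ℕ) (p : List C.Gate) : Prop :=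
  p.IsChain (fun h g => ∃ s, C.src g s = Sum.inr h) ∧ ∀ g ∈ p, C.Big K g

open Classical in
/-- Every directed path of big gates contains at most `d` shared gates. -/
def SharingDepthLE (K d : ℕ) : Prop :=
  ∀ p : List C.Gate, C.IsBigPath K p → p.countP (fun g => decide (C.Shared K g)) ≤ d

end Circuit

/-- The input variables: the bits `x_i`, `y_j` (`i, j < n`) and `t_u` (`u < 2 n - 1`). -/
abbrev Inp (n : ℕ) : Type := (Fin n ⊕ Fin n) ⊕ Fin (2 * n - 1)

/-- The index `i + j`. -/
def ad {n : ℕ} (i j : Fin n) : Fin (2 * n - 1) := ⟨i.1 + j.1, by omega⟩

/-- A bit as an element of the field with two elements. -/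
def bit (a : Bool) : ZMod 2 := if a then 1 else 0

/-- The explicit function: `∑_(i, j) t_(i + j) x_i y_j` modulo `2`, that is the scalar product of
`t` with the coefficients of the product of the polynomials `x` and `y`. -/
def hank {n : ℕ} (z : Inp n → Bool) : Bool :=
  decide (∑ i : Fin n, ∑ j : Fin n, bit (z (Sum.inr (ad i j))) * bit (z (Sum.inl (Sum.inl i))) *
    bit (z (Sum.inl (Sum.inr j))) = 1)

/-- The sign `(-1) ^ a`. -/
def sgn (a : Bool) : ℝ := if a then -1 else 1

/-- The sign of an element of the field with two elements. -/
def chi (z : ZMod 2) : ℝ := if z = 0 then 1 else -1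

end Pool.Agent.Lib_MP_22d2c8_bs
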