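import Pool.Agent.Lib_MP_22d2c8_bs.Core

/-!
# BS-Final: choice of the parameters

`poly_le`: `(a * n + b) ^ s ≤ 2 ^ (n / q)` for large `n` (for example `tendsto_pow_const_div_const_pow_of_one_lt`
for the function `m ↦ (m + 1) ^ s / 2 ^ m` with `m = n / q`, `n ≤ q * (m + 1)`; or elementary).

`corr`: put `r θ = (2 c + 1) θ`, `T θ = 16 (r θ)^2`, `D θ = 256 * (r θ + 1) * 2 ^ (T θ)`,
`M = Gf c d D d (K + 1)` (upper bound for `Θ`, so for `θ`), `R = (2 c + 1) M`, `T₀ = 16 R^2`, `q = 128 * 2 ^ T₀`, and `N` so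
large that for `n ≥ N`: `16 * R ≤ n` and `(2 ^ (K+2) * (R * n + 1)) ^ (2 * T₀) ≤ 2 ^ (n / (32 * 2 ^ T₀))` and
`n / (16 * 2 ^ T₀) ≥ 4`, `0 < n`.
For a circuit `C`: `exists_lev`, `thresholds` (with this `D`) give `lev, th, θ ≤ Θ ≤ M`; `r = (2 c + 1) θ`, `T = 16 r^2`,
`k = n / (16 * 2 ^ T)`, so `2 ^ T * (2 k) * 8 ≤ n`. By `core` `Θ * #larges ≤ r n` and `D θ ≤ Θ`, hence
`#larges * 256 * 2 ^ T ≤ n`, `#larges ≤ n / (16 * 2 ^ T) / 16 = k / 16`. And `n / q ≤ k / 8` (as `T ≤ T₀`),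
`(2 ^ (K+2) (r n + 1)) ^ (2 T) ≤ 2 ^ (k / 2)`-like bound by `2 ^ (n / (32 * 2 ^ T₀)) ≤ 2 ^ (n / (16 * 2 ^ T) / 2) = 2 ^ (k / 2)`.
So `P ^ 2 * 2 * 2 ^ (2 (n / q)) ≤ 2 ^ (2 * (k / 16) + k / 2 + 1 + 2 * (k / 8)) ≤ 2 ^ (2 k)`, and
`(2 ^ (n/q) * S) ^ 2 * 2 ^ (2 k) ≤ 2 ^ (2 (n/q)) * P ^ 2 * 2 * V ^ 2 ≤ 2 ^ (2 k) * V ^ 2`, `V = 2 ^ (4 n - 1)`:
cancel, `abs_le_of_sq_le_sq`.

`agree`: `#agree - #disagree = S` (`sgn p * sgn q = 1` if `p = q`, else `-1`), `#agree + #disagree = 2 ^ (4 n - 1)`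
(`Fintype.card` of `Inp n → Bool`, `Inp n` has `n + n + (2 n - 1) = 4 n - 1` elements for `n ≥ 1`), so
`#agree = (V + S) / 2 ≤ (1/2 + 1 / 2 ^ (n/q)) V`. Take `N ≥ 1`.
-/

namespace Pool.Agent.Lib_MP_22d2c8_bs

open Finset

theorem poly_le (a b s q : ℕ) (hq : 0 < q) : ∃ N, ∀ n ≥ N, (a * n + b) ^ s ≤ 2 ^ (n / q) := by
  have ht := tendsto_pow_const_div_const_pow_of_one_lt s (r := (2 : ℝ)) (by norm_num)
  have hc : (0 : ℝ) < 1 / (2 * ((a * q + b : ℕ) : ℝ) ^ s + 1) := by positivity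
  have hev := ht.eventually (gt_mem_nhds hc)
  rw [Filter.eventually_atTop] at hev
  obtain ⟨M, hM⟩ := hev
  refine ⟨q * M, fun n hn => ?_⟩
  have h1 : M ≤ n / q := by
    rw [Nat.le_div_iff_mul_le hq, mul_comm]
    exact hn
  set m := n / q with hm
  have h2 : n ≤ q * (m + 1) := by
    have := Nat.lt_mul_div_succ n hq
    rw [← hm] at this
    exact this.le
  have h3 : a * n + b ≤ (a * q + b) * (m + 1) := by
    calc a * n + b ≤ a * (q * (m + 1)) + b * (m + 1) := by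
          apply Nat.add_le_add (Nat.mul_le_mul_left _ h2)
          exact Nat.le_mul_of_pos_right _ (Nat.succ_pos _)
      _ = (a * q + b) * (m + 1) := by ring
  have h4 := hM (m + 1) (by omega)
  rw [div_lt_div_iff₀ (by positivity) (by positivity), one_mul] at h4
  have h5 : ((m + 1 : ℕ) : ℝ) ^ s * (2 * ((a * q + b : ℕ) : ℝ) ^ s) ≤ 2 ^ (m + 1) := by
    have h6 : (0 : ℝ) ≤ ((m + 1 : ℕ) : ℝ) ^ s := by positivity
    nlinarith
  have h7 : ((a * q + b : ℕ) : ℝ) ^ s * ((m + 1 : ℕ) : ℝ) ^ s ≤ 2 ^ m := by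
    rw [pow_succ] at h5
    nlinarith
  have h8 : (a * q + b) ^ s * (m + 1) ^ s ≤ 2 ^ m := by exact_mod_cast h7
  calc (a * n + b) ^ s ≤ ((a * q + b) * (m + 1)) ^ s := Nat.pow_le_pow_left h3 s
    _ = (a * q + b) ^ s * (m + 1) ^ s := mul_pow _ _ _
    _ ≤ 2 ^ m := h8

/-- the numerical part of `corr` -/
private theorem Final_num {K r R T T₀ M₀ k L n q Θ : ℕ} {s V : ℝ} (hV : 0 ≤ V)
    (hrR : r ≤ R) (hT : T = 16 * r ^ 2) (hT₀ : T₀ = 16 * R ^ 2)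
    (hk : k = n / (16 * 2 ^ T)) (hq : q = 128 * 2 ^ T₀) (hn : M₀ ≤ n) (hM₀ : M₀ = 16 * 2 ^ T₀)
    (hpoly : (2 ^ (K + 2) * R * n + 2 ^ (K + 2)) ^ (2 * T₀) ≤ 2 ^ (n / (32 * 2 ^ T₀)))
    (hD : 256 * (r + 1) * 2 ^ T ≤ Θ) (hL : Θ * L ≤ r * n)
    (hs : s ^ 2 * 2 ^ (2 * k) ≤
      (2 ^ L * ((2 ^ (K + 2) * (r * n + 1) : ℕ) : ℝ) ^ T) ^ 2 * 2 * V ^ 2) :
    2 ^ (n / q) * |s| ≤ V := by
  have hTT : T ≤ T₀ := by
    rw [hT, hT₀]
    exact Nat.mul_le_mul_left _ (Nat.pow_le_pow_left hrR 2)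
  have h2T : 2 ^ T ≤ 2 ^ T₀ := Nat.pow_le_pow_right (by norm_num) hTT
  have h2T1 : 1 ≤ 2 ^ T := Nat.one_le_two_pow
  have hk1 : 1 ≤ k := by
    rw [hk, Nat.le_div_iff_mul_le (by positivity)]
    omega
  -- the number of large gates
  have hL1 : 256 * 2 ^ T * L ≤ n := by
    have h1 : (r + 1) * (256 * 2 ^ T * L) ≤ (r + 1) * n := by
      calc (r + 1) * (256 * 2 ^ T * L) = 256 * (r + 1) * 2 ^ T * L := by ring
        _ ≤ Θ * L := Nat.mul_le_mul_right _ hD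
        _ ≤ r * n := hL
        _ ≤ (r + 1) * n := Nat.mul_le_mul_right _ (Nat.le_succ _)
    exact Nat.le_of_mul_le_mul_left h1 (Nat.succ_pos _)
  have hL2 : L * 16 ≤ k := by
    rw [hk, Nat.le_div_iff_mul_le (by positivity)]
    calc L * 16 * (16 * 2 ^ T) = 256 * 2 ^ T * L := by ring
      _ ≤ n := hL1
  have hq8 : n / q * 8 ≤ k := by
    rw [hk, Nat.le_div_iff_mul_le (by positivity)]
    calc n / q * 8 * (16 * 2 ^ T) = n / q * (128 * 2 ^ T) := by ring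
      _ ≤ n / q * q := by
          rw [hq]
          exact Nat.mul_le_mul_left _ (Nat.mul_le_mul_left _ h2T)
      _ ≤ n := Nat.div_mul_le_self _ _
  have hhalf : n / (32 * 2 ^ T₀) * 2 ≤ k := by
    rw [hk, Nat.le_div_iff_mul_le (by positivity)]
    calc n / (32 * 2 ^ T₀) * 2 * (16 * 2 ^ T) = n / (32 * 2 ^ T₀) * (32 * 2 ^ T) := by ring
      _ ≤ n / (32 * 2 ^ T₀) * (32 * 2 ^ T₀) :=
          Nat.mul_le_mul_left _ (Nat.mul_le_mul_left _ h2T)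
      _ ≤ n := Nat.div_mul_le_self _ _
  -- the polynomial factor
  have hbase : 2 ^ (K + 2) * (r * n + 1) ≤ 2 ^ (K + 2) * R * n + 2 ^ (K + 2) := by
    have h1 : r * n ≤ R * n := Nat.mul_le_mul_right _ hrR
    calc 2 ^ (K + 2) * (r * n + 1) ≤ 2 ^ (K + 2) * (R * n + 1) :=
          Nat.mul_le_mul_left _ (Nat.succ_le_succ h1)
      _ = 2 ^ (K + 2) * R * n + 2 ^ (K + 2) := by ring
  have hfac : ((2 ^ (K + 2) * (r * n + 1)) ^ T) ^ 2 ≤ 2 ^ (n / (32 * 2 ^ T₀)) := by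
    have h1 : 1 ≤ 2 ^ (K + 2) * (r * n + 1) := Nat.mul_pos (by positivity) (Nat.succ_pos _)
    calc ((2 ^ (K + 2) * (r * n + 1)) ^ T) ^ 2 = (2 ^ (K + 2) * (r * n + 1)) ^ (2 * T) := by
          rw [← pow_mul]
          congr 1
          ring
      _ ≤ (2 ^ (K + 2) * (r * n + 1)) ^ (2 * T₀) := Nat.pow_le_pow_right h1 (by omega)
      _ ≤ (2 ^ (K + 2) * R * n + 2 ^ (K + 2)) ^ (2 * T₀) := Nat.pow_le_pow_left hbase _
      _ ≤ _ := hpoly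
  have hfac' : ((((2 ^ (K + 2) * (r * n + 1) : ℕ) : ℝ) ^ T)) ^ 2 ≤ 2 ^ (n / (32 * 2 ^ T₀)) := by
    exact_mod_cast hfac
  have hexp : 2 * (n / q) + (2 * L + n / (32 * 2 ^ T₀) + 1) ≤ 2 * k := by omega
  have hkey : (2 ^ (n / q) * |s|) ^ 2 * 2 ^ (2 * k) ≤ V ^ 2 * 2 ^ (2 * k) := by
    calc (2 ^ (n / q) * |s|) ^ 2 * 2 ^ (2 * k) = 2 ^ (2 * (n / q)) * (s ^ 2 * 2 ^ (2 * k)) := by
          rw [mul_pow, sq_abs, ← pow_mul, mul_comm (n / q) 2]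
          ring
      _ ≤ 2 ^ (2 * (n / q)) *
          ((2 ^ L * ((2 ^ (K + 2) * (r * n + 1) : ℕ) : ℝ) ^ T) ^ 2 * 2 * V ^ 2) :=
          mul_le_mul_of_nonneg_left hs (by positivity)
      _ = 2 ^ (2 * (n / q)) * (2 ^ (2 * L) *
          (((2 ^ (K + 2) * (r * n + 1) : ℕ) : ℝ) ^ T) ^ 2 * 2) * V ^ 2 := by
          rw [mul_pow, ← pow_mul, mul_comm L 2]
          ring
      _ ≤ 2 ^ (2 * (n / q)) * (2 ^ (2 * L) * 2 ^ (n / (32 * 2 ^ T₀)) * 2) * V ^ 2 := by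
          apply mul_le_mul_of_nonneg_right _ (sq_nonneg V)
          apply mul_le_mul_of_nonneg_left _ (by positivity)
          apply mul_le_mul_of_nonneg_right _ (by norm_num)
          exact mul_le_mul_of_nonneg_left hfac' (by positivity)
      _ = 2 ^ (2 * (n / q) + (2 * L + n / (32 * 2 ^ T₀) + 1)) * V ^ 2 := by
          rw [pow_add, pow_add, pow_add, pow_one]
      _ ≤ 2 ^ (2 * k) * V ^ 2 := by
          apply mul_le_mul_of_nonneg_right _ (sq_nonneg V)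
          exact pow_le_pow_right₀ (by norm_num) hexp
      _ = V ^ 2 * 2 ^ (2 * k) := mul_comm _ _
  have hkey2 : (2 ^ (n / q) * |s|) ^ 2 ≤ V ^ 2 := le_of_mul_le_mul_right hkey (by positivity)
  exact (pow_le_pow_iff_left₀ (by positivity) hV (by norm_num)).1 hkey2

theorem corr (d K c : ℕ) : ∃ q N : ℕ, 0 < q ∧ 0 < N ∧ ∀ n ≥ N, ∀ C : Circuit (Inp n),
    (C.bigs K).card ≤ c * n → C.SharingDepthLE K d →
      2 ^ (n / q) * |∑ x : Inp n → Bool, sgn (C.val x C.out) * sgn (hank x)| ≤ 2 ^ (4 * n - 1) := by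
  obtain ⟨D, hD⟩ : ∃ D : ℕ → ℕ, ∀ θ, D θ =
      256 * ((2 * c + 1) * θ + 1) * 2 ^ (16 * ((2 * c + 1) * θ) ^ 2) := ⟨_, fun _ => rfl⟩
  obtain ⟨M, hM⟩ : ∃ M, M = Gf c d D d (K + 1) := ⟨_, rfl⟩
  obtain ⟨R, hR⟩ : ∃ R, R = (2 * c + 1) * M := ⟨_, rfl⟩
  obtain ⟨T₀, hT₀⟩ : ∃ T₀, T₀ = 16 * R ^ 2 := ⟨_, rfl⟩
  obtain ⟨N₁, hN₁⟩ := poly_le (2 ^ (K + 2) * R) (2 ^ (K + 2)) (2 * T₀) (32 * 2 ^ T₀) (by positivity)
  refine ⟨128 * 2 ^ T₀, N₁ + 16 * R + 16 * 2 ^ T₀, by positivity, by positivity, ?_⟩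
  intro n hn C hc hd
  have h2T₀ : 1 ≤ 2 ^ T₀ := Nat.one_le_two_pow
  have hn0 : 0 < n := by omega
  obtain ⟨lev, hlev⟩ := C.exists_lev K d hd
  obtain ⟨th, θ, Θ, hθ1, hθ2, hθ3, hθ4, hth, hmid⟩ := C.thresholds K c d n D hn0 lev hlev hc
  rw [← hM] at hθ4
  obtain ⟨r, hr⟩ : ∃ r, r = (2 * c + 1) * θ := ⟨_, rfl⟩
  have hrR : r ≤ R := by
    rw [hr, hR]
    exact Nat.mul_le_mul_left _ (hθ2.trans hθ4)
  have hTT : 16 * r ^ 2 ≤ T₀ := by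
    rw [hT₀]
    exact Nat.mul_le_mul_left _ (Nat.pow_le_pow_left hrR 2)
  have hkk : 2 ^ (16 * r ^ 2) * (2 * (n / (16 * 2 ^ (16 * r ^ 2)))) * 8 ≤ n := by
    calc 2 ^ (16 * r ^ 2) * (2 * (n / (16 * 2 ^ (16 * r ^ 2)))) * 8 =
          n / (16 * 2 ^ (16 * r ^ 2)) * (16 * 2 ^ (16 * r ^ 2)) := by ring
      _ ≤ n := Nat.div_mul_le_self _ _
  obtain ⟨hL, hs⟩ := C.core K c d r (n / (16 * 2 ^ (16 * r ^ 2))) lev hlev hc th θ Θ hθ1 hth hmid hr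
    (by omega) hkk
  rw [hD, ← hr] at hθ3
  exact Final_num (K := K) (by positivity) hrR rfl hT₀ rfl rfl (by omega) rfl (hN₁ n (by omega))
    hθ3 hL hs

theorem agree (d K c : ℕ) : ∃ q N : ℕ, 0 < q ∧ ∀ n ≥ N, ∀ C : Circuit (Inp n),
    (C.bigs K).card ≤ c * n → C.SharingDepthLE K d →
      ((univ.filter fun x : Inp n → Bool => C.val x C.out = hank x).card : ℝ) ≤
        (1 / 2 + 1 / 2 ^ (n / q)) * 2 ^ (4 * n - 1) := by
  obtain ⟨q, N, hq, hN, h⟩ := corr d K c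
  refine ⟨q, N, hq, fun n hn C hc hd => ?_⟩
  have h1 := h n hn C hc hd
  have hn0 : 0 < n := by omega
  have h2 : ∑ x : Inp n → Bool, sgn (C.val x C.out) * sgn (hank x) =
      2 * ((univ.filter fun x : Inp n → Bool => C.val x C.out = hank x).card : ℝ) -
        2 ^ (4 * n - 1) := by
    have h3 : ∀ x : Inp n → Bool, sgn (C.val x C.out) * sgn (hank x) =
        2 * (if C.val x C.out = hank x then (1 : ℝ) else 0) - 1 := by
      intro x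
      cases C.val x C.out <;> cases hank x <;> norm_num [sgn]
    rw [Finset.sum_congr rfl fun x _ => h3 x, Finset.sum_sub_distrib, ← Finset.mul_sum,
      Finset.sum_boole]
    have h4 : ∑ _x : Inp n → Bool, (1 : ℝ) = 2 ^ (4 * n - 1) := by
      rw [Finset.sum_const, Finset.card_univ, Fintype.card_fun, Fintype.card_bool]
      have h6 : Fintype.card (Inp n) = 4 * n - 1 := by
        simp only [Inp, Fintype.card_sum, Fintype.card_fin]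
        omega
      rw [h6]
      simp
    rw [h4]
  rw [h2] at h1
  set A : ℝ := ((univ.filter fun x : Inp n → Bool => C.val x C.out = hank x).card : ℝ) with hA
  set V : ℝ := 2 ^ (4 * n - 1) with hV
  set Q : ℝ := 2 ^ (n / q) with hQ
  have hQ0 : 0 < Q := by positivity
  have hV0 : 0 < V := by positivity
  have h5 : 2 * A - V ≤ V / Q := by
    rw [le_div_iff₀ hQ0]
    have := le_abs_self (2 * A - V)
    nlinarith
  have h6 : V / Q = (1 / Q) * V := by ring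
  have h7 : 0 ≤ V / Q := by positivity
  rw [h6] at h5 h7
  nlinarith

end Pool.Agent.Lib_MP_22d2c8_bs
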