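import Pool.Agent.Lib_MP_22d2c8_bs.Seq

/-!
# BS-Mass: total length of the reading sequences of shared gates

`seq_congr`: strong induction on `g`; by `seq_eq` compare the `sseq` of the two sources: input bits
trivial; `inr h`: small `h`: both are `loc h`; `h` big: `lev h ≤ lev g ≤ k`, the sequences of `h` agree by
induction; if `h` is shared then `lev h < lev g ≤ k`, so `th (lev h) = th' (lev h)`.

`mass_le`: let `G` be a finite set of big gates such that every big source `h` of a gate in `G` is in `G`, and
`th (lev h) ≤ B` for every shared big source `h` of a gate in `G`. Then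
`∑_(g ∈ G shared) |seq g| + (if o ∈ G is not read by G and not shared then |seq o|) ≤ 2 |G| B`. Proof:
`|seq g| = |sseq (src g false)| + |sseq (src g true)|` (`length_join`). For a pair `(g, s)`, `g ∈ G`, the
sequence of the source has length `≤ B`, except when the source is a big unshared gate `h`, and then it
is `|seq h|` (`rseq h = seq h`), `h ∈ G`, and for each such `h` there is at most one pair (definition of
`Shared`: fewer than two big readers), none for `h = o`. So
`∑_(g ∈ G) |seq g| ≤ 2 |G| B + ∑_(h ∈ G unshared, h ≠ o) |seq h|`; subtract.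
`mass`: `G` = big gates with `lev ≤ k` (`IsLev`: sources of `g` have `lev ≤ lev g`, shared ones `lev < lev g ≤ k`).
`mass_out`: `G` = all big gates, `o = out` (nobody reads the last gate, `C.src_lt`; in particular it is
not shared). If `out` is big, `rseq out = seq out`; if it is small, `|rseq out| ≤ K` (`loc_length`).
-/

namespace Pool.Agent.Lib_MP_22d2c8_bs

open Finset

namespace Circuit

variable {W U : Type} (C : Circuit (W ⊕ U)) (K : ℕ)

open Classical in
/-- Two big readers of an unshared gate coincide. -/
private theorem Mass_readers (G : Finset C.Gate) (hG : ∀ g ∈ G, C.Big K g) (h : C.Gate)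
    (hs : ¬ C.Shared K h) :
    ((G ×ˢ (univ : Finset Bool)).filter fun p => C.src p.1 p.2 = Sum.inr h).card ≤ 1 := by
  have h1 : ((G ×ˢ (univ : Finset Bool)).filter fun p => C.src p.1 p.2 = Sum.inr h) ⊆
      univ.filter fun p : C.Gate × Bool => C.Big K p.1 ∧ C.src p.1 p.2 = Sum.inr h := by
    intro p hp
    rw [mem_filter, mem_product] at hp
    exact mem_filter.2 ⟨mem_univ _, hG _ hp.1.1, hp.2⟩
  have h2 := Finset.card_le_card h1
  unfold Shared at hs
  omega

open Classical in
/-- The contribution of a source beyond `B`. -/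
private noncomputable def Mass_f (lev : C.Gate → ℕ) (th : ℕ → ℕ) : (W ⊕ U) ⊕ C.Gate → ℕ
  | Sum.inl _ => 0
  | Sum.inr h => if C.Big K h ∧ ¬ C.Shared K h then (C.seq K lev th h).length else 0

open Classical in
private theorem Mass_src (lev : C.Gate → ℕ) (th : ℕ → ℕ) (B : ℕ) (hK : K + 1 ≤ B)
    (s : (W ⊕ U) ⊕ C.Gate)
    (hth : ∀ h, s = Sum.inr h → C.Big K h → C.Shared K h → th (lev h) ≤ B) :
    (C.sseq K lev th s).length ≤ B + C.Mass_f K lev th s := by
  rcases s with (w | u) | h
  · simp only [sseq, List.length_singleton]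
    omega
  · simp only [sseq, List.length_nil]
    omega
  · simp only [sseq, rseq, Mass_f]
    by_cases hs : C.Small K h
    · rw [if_pos hs]
      have := C.loc_length K h
      omega
    · rw [if_neg hs]
      have hb : C.Big K h := hs
      by_cases hsh : C.Shared K h
      · by_cases hc : th (lev h) < (C.seq K lev th h).length
        · rw [if_pos ⟨hsh, hc⟩]
          simp
        · rw [if_neg (fun hh => hc hh.2)]
          have := hth h rfl hb hsh
          omega
      · rw [if_neg (fun hh => hsh hh.1), if_pos ⟨hb, hsh⟩]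
        omega

open Classical in
private theorem Mass_le (lev : C.Gate → ℕ) (th : ℕ → ℕ) (B : ℕ) (hK : K + 1 ≤ B)
    (G O : Finset C.Gate) (hG : ∀ g ∈ G, C.Big K g)
    (hcl : ∀ g ∈ G, ∀ s h, C.src g s = Sum.inr h → C.Big K h → h ∈ G)
    (hth : ∀ g ∈ G, ∀ s h, C.src g s = Sum.inr h → C.Big K h → C.Shared K h → th (lev h) ≤ B)
    (hO : O ⊆ G) (hOs : ∀ o ∈ O, ¬ C.Shared K o)
    (hOr : ∀ o ∈ O, ∀ g ∈ G, ∀ s, C.src g s ≠ Sum.inr o) :
    ∑ g ∈ G.filter (fun g => C.Shared K g), (C.seq K lev th g).length +
      ∑ o ∈ O, (C.seq K lev th o).length ≤ 2 * G.card * B := by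
  set Q : Finset C.Gate := (G.filter (fun g => ¬ C.Shared K g)) \ O with hQ
  have hpt : ∀ p ∈ G ×ˢ (univ : Finset Bool), C.Mass_f K lev th (C.src p.1 p.2) ≤
      ∑ h ∈ Q, if C.src p.1 p.2 = Sum.inr h then (C.seq K lev th h).length else 0 := by
    intro p hp
    have hpG := (mem_product.1 hp).1
    rcases e : C.src p.1 p.2 with v | h
    · simp [Mass_f]
    · simp only [Mass_f]
      split_ifs with hh
      · have hhQ : h ∈ Q := by
          rw [hQ, mem_sdiff, mem_filter]
          exact ⟨⟨hcl _ hpG _ _ e hh.1, hh.2⟩, fun ho => hOr h ho _ hpG _ e⟩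
        refine le_trans (le_of_eq ?_) (Finset.single_le_sum (f := fun h' =>
          if (Sum.inr h : (W ⊕ U) ⊕ C.Gate) = Sum.inr h' then (C.seq K lev th h').length else 0)
          (fun _ _ => Nat.zero_le _) hhQ)
        simp
      · exact Nat.zero_le _
  have hsum : ∑ p ∈ G ×ˢ (univ : Finset Bool), C.Mass_f K lev th (C.src p.1 p.2) ≤
      ∑ h ∈ Q, (C.seq K lev th h).length := by
    refine le_trans (Finset.sum_le_sum hpt) ?_
    rw [Finset.sum_comm]
    refine Finset.sum_le_sum fun h hh => ?_
    rw [← Finset.sum_filter, Finset.sum_const, smul_eq_mul]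
    have hns : ¬ C.Shared K h := by
      rw [hQ, mem_sdiff, mem_filter] at hh
      exact hh.1.2
    have := C.Mass_readers K G hG h hns
    calc _ ≤ 1 * (C.seq K lev th h).length := Nat.mul_le_mul_right _ this
      _ = _ := one_mul _
  have htot : ∑ g ∈ G, (C.seq K lev th g).length ≤
      2 * G.card * B + ∑ h ∈ Q, (C.seq K lev th h).length := by
    have h1 : ∀ g ∈ G, (C.seq K lev th g).length ≤
        2 * B + ∑ s : Bool, C.Mass_f K lev th (C.src g s) := by
      intro g hg
      rw [seq_eq, length_join, Fintype.sum_bool]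
      have h2 := C.Mass_src K lev th B hK (C.src g false) (fun h e => hth g hg false h e)
      have h3 := C.Mass_src K lev th B hK (C.src g true) (fun h e => hth g hg true h e)
      omega
    refine le_trans (Finset.sum_le_sum h1) ?_
    rw [Finset.sum_add_distrib, Finset.sum_const, smul_eq_mul, ← Finset.sum_product']
    have h4 : G.card * (2 * B) = 2 * G.card * B := by ring
    rw [h4]
    exact Nat.add_le_add_left hsum _
  have hsplit := Finset.sum_filter_add_sum_filter_not G (fun g => C.Shared K g)
    (fun g => (C.seq K lev th g).length)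
  have hOQ : ∑ h ∈ Q, (C.seq K lev th h).length + ∑ o ∈ O, (C.seq K lev th o).length =
      ∑ g ∈ G.filter (fun g => ¬ C.Shared K g), (C.seq K lev th g).length := by
    rw [hQ]
    refine Finset.sum_sdiff ?_
    intro o ho
    exact mem_filter.2 ⟨hO ho, hOs o ho⟩
  omega

theorem seq_congr {d : ℕ} {lev : C.Gate → ℕ} (hlev : C.IsLev K d lev) (k : ℕ) (th th' : ℕ → ℕ)
    (h : ∀ l < k, th l = th' l) (g : C.Gate) (hg : C.Big K g) (hk : lev g ≤ k) :
    C.seq K lev th g = C.seq K lev th' g := by
  classical
  induction g using WellFoundedLT.induction with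
  | ind g ih =>
    have key : ∀ s, C.sseq K lev th (C.src g s) = C.sseq K lev th' (C.src g s) := by
      intro s
      rcases e : C.src g s with (w | u) | a
      · rfl
      · rfl
      · simp only [sseq, rseq]
        by_cases hs : C.Small K a
        · rw [if_pos hs, if_pos hs]
        · have hb : C.Big K a := hs
          have hl := hlev.1 g s a hg hb e
          have hseq := ih a (C.src_lt g s a e) hb (le_trans hl.1 hk)
          rw [if_neg hs, if_neg hs, hseq]
          by_cases hsh : C.Shared K a
          · rw [h (lev a) (lt_of_lt_of_le (hl.2 hsh) hk)]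
          · rw [if_neg (fun hh => hsh hh.1), if_neg (fun hh => hsh hh.1)]
    rw [seq_eq, seq_eq, key, key]

open Classical in
theorem mass {d : ℕ} {lev : C.Gate → ℕ} (hlev : C.IsLev K d lev) (th : ℕ → ℕ) (B k : ℕ)
    (hK : K + 1 ≤ B) (hB : ∀ l < k, th l ≤ B) :
    ∑ g ∈ univ.filter (fun g => C.Big K g ∧ C.Shared K g ∧ lev g ≤ k), (C.seq K lev th g).length ≤
      2 * (C.bigs K).card * B := by
  have h1 := C.Mass_le K lev th B hK (univ.filter fun g => C.Big K g ∧ lev g ≤ k) ∅
    (fun g hg => (mem_filter.1 hg).2.1)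
    (fun g hg s a e ha => by
      have hg' := (mem_filter.1 hg).2
      exact mem_filter.2 ⟨mem_univ _, ha, le_trans (hlev.1 g s a hg'.1 ha e).1 hg'.2⟩)
    (fun g hg s a e ha hsh => by
      have hg' := (mem_filter.1 hg).2
      exact hB _ (lt_of_lt_of_le ((hlev.1 g s a hg'.1 ha e).2 hsh) hg'.2))
    (Finset.empty_subset _) (by simp) (by simp)
  rw [Finset.sum_empty, add_zero, Finset.filter_filter] at h1
  have h2 : (univ.filter fun g => C.Big K g ∧ lev g ≤ k).card ≤ (C.bigs K).card := by
    refine Finset.card_le_card ?_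
    intro g hg
    exact mem_filter.2 ⟨mem_univ _, (mem_filter.1 hg).2.1⟩
  have h3 : (univ.filter fun g => C.Big K g ∧ C.Shared K g ∧ lev g ≤ k) =
      univ.filter fun g => (C.Big K g ∧ lev g ≤ k) ∧ C.Shared K g := by
    ext g
    simp only [mem_filter, mem_univ, true_and]
    tauto
  rw [h3]
  refine le_trans h1 ?_
  exact Nat.mul_le_mul_right _ (Nat.mul_le_mul_left _ h2)

open Classical in
theorem mass_out {d : ℕ} {lev : C.Gate → ℕ} (hlev : C.IsLev K d lev) (th : ℕ → ℕ) (B : ℕ)
    (hK : K + 1 ≤ B) (hB : ∀ l < d, th l ≤ B) :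
    ∑ g ∈ univ.filter (fun g => C.Big K g ∧ C.Shared K g), (C.seq K lev th g).length +
      (C.rseq K lev th C.out).length ≤ 2 * (C.bigs K).card * B + K := by
  have hread : ∀ g s, C.src g s ≠ Sum.inr C.out := by
    intro g s e
    exact absurd (C.src_lt g s _ e) (not_lt.2 (Fin.le_last g))
  have hns : ¬ C.Shared K C.out := by
    intro hsh
    unfold Shared at hsh
    rw [Finset.filter_false_of_mem (fun p _ hp => hread _ _ hp.2), Finset.card_empty] at hsh
    omega
  have hmem : ∀ g, g ∈ C.bigs K ↔ C.Big K g := by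
    intro g
    simp [bigs]
  have hle : ∀ O : Finset C.Gate, O ⊆ C.bigs K → O ⊆ {C.out} →
      ∑ g ∈ univ.filter (fun g => C.Big K g ∧ C.Shared K g), (C.seq K lev th g).length +
        ∑ o ∈ O, (C.seq K lev th o).length ≤ 2 * (C.bigs K).card * B := by
    intro O hO hO'
    have h1 := C.Mass_le K lev th B hK (C.bigs K) O (fun g hg => (hmem g).1 hg)
      (fun g _ s a _ ha => (hmem a).2 ha)
      (fun g _ s a _ ha hsh => hB _ (hlev.2 a ha hsh)) hO
      (fun o ho => by
        rw [Finset.mem_singleton.1 (hO' ho)]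
        exact hns)
      (fun o ho g _ s => by
        rw [Finset.mem_singleton.1 (hO' ho)]
        exact hread g s)
    have h2 : (univ.filter fun g => C.Big K g ∧ C.Shared K g) =
        (C.bigs K).filter fun g => C.Shared K g := by
      ext g
      simp [bigs]
    rw [h2]
    exact h1
  by_cases hs : C.Small K C.out
  · have h1 := hle ∅ (Finset.empty_subset _) (Finset.empty_subset _)
    rw [Finset.sum_empty, add_zero] at h1
    have h2 : (C.rseq K lev th C.out).length ≤ K := by
      unfold rseq
      rw [if_pos hs]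
      exact C.loc_length K _
    omega
  · have h1 := hle {C.out} (Finset.singleton_subset_iff.2 ((hmem _).2 hs)) (Finset.Subset.refl _)
    rw [Finset.sum_singleton] at h1
    have h2 : C.rseq K lev th C.out = C.seq K lev th C.out := by
      unfold rseq
      rw [if_neg hs, if_neg (fun hh => hns hh.1)]
    rw [h2]
    omega

end Circuit

end Pool.Agent.Lib_MP_22d2c8_bs
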