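import Pool.Agent.Lib_MP_22d2c8_bs.Defs

/-!
# BS-Rect: rectangle bound for the bilinear form (Lindsey)

Proof of `rect`. Let `c a a' = fun i => xor (a i) (a' i)`. Then `bil a b + bil a' b = bil (c a a') b`
(`bit (xor p q) = bit p + bit q`), and `chi (p + q) = chi p * chi q`, so
`∑_b chi (bil a b) * chi (bil a' b) = ∑_b chi (bil (c a a') b)`, which is `2 ^ n` if `Ker (c a a')` and `0` otherwise:
`bil a b = ∑_(j ∈ B) r_j * bit (b j)` with `r_j = ∑_(i ∈ A) bit (t (ad i j)) * bit (a i)`; if some `r_j ≠ 0`, `j ∈ B`,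
flipping `b j` changes the sign (an involution). Hence
`∑_b (∑_a φ₁ a * chi (bil a b))^2 = ∑_(a, a') φ₁ a * φ₁ a' * ∑_b chi (bil (c a a') b) ≤ ∑_(a, a') 2^n * [Ker (c a a')] = 2^n * 2^n * kap`
(for fixed `a`, `a' ↦ c a a'` is a bijection). Cauchy-Schwarz over `b` (`Finset.sum_mul_sq_le_sq_mul_sq`)
with `∑_b (φ₂ b)^2 ≤ 2 ^ n` gives the bound `2 ^ (3 n) * kap`.
-/

namespace Pool.Agent.Lib_MP_22d2c8_bs

open Finset

variable {n : ℕ}

/-- The bilinear form on the bits in `A` and `B`. -/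
def bil (A B : Finset (Fin n)) (t : Fin (2 * n - 1) → Bool) (a b : Fin n → Bool) : ZMod 2 :=
  ∑ i ∈ A, ∑ j ∈ B, bit (t (ad i j)) * bit (a i) * bit (b j)

/-- `a` is in the kernel of the form. -/
def Ker (A B : Finset (Fin n)) (t : Fin (2 * n - 1) → Bool) (a : Fin n → Bool) : Prop :=
  ∀ j ∈ B, ∑ i ∈ A, bit (t (ad i j)) * bit (a i) = 0

open Classical in
/-- The size of the kernel. -/
noncomputable def kap (A B : Finset (Fin n)) (t : Fin (2 * n - 1) → Bool) : ℕ :=
  (univ.filter fun a : Fin n → Bool => Ker A B t a).card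

private theorem Rect_zmod (r : ZMod 2) : r = 0 ∨ r = 1 := by
  revert r
  decide

private theorem Rect_chi_zero : chi 0 = 1 := by
  unfold chi
  rw [if_pos rfl]

private theorem Rect_chi_one : chi 1 = -1 := by
  unfold chi
  rw [if_neg one_ne_zero]

theorem chi_add (p q : ZMod 2) : chi (p + q) = chi p * chi q := by
  have h2 : (1 : ZMod 2) + 1 = 0 := rfl
  rcases Rect_zmod p with rfl | rfl
  · rw [zero_add, Rect_chi_zero, one_mul]
  · rcases Rect_zmod q with rfl | rfl
    · rw [add_zero, Rect_chi_zero, mul_one]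
    · rw [h2, Rect_chi_zero, Rect_chi_one]
      norm_num

/-- the sum of two vectors of bits -/
private def Rect_c (a a' : Fin n → Bool) : Fin n → Bool := fun i => xor (a i) (a' i)

private theorem Rect_bit (p q : Bool) : bit (xor p q) = bit p + bit q := by
  cases p <;> cases q <;> rfl

private theorem Rect_c_c (a a' : Fin n → Bool) : Rect_c a (Rect_c a a') = a' := by
  funext i
  unfold Rect_c
  cases a i <;> cases a' i <;> rfl

private theorem Rect_bil_add (A B : Finset (Fin n)) (t : Fin (2 * n - 1) → Bool)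
    (a a' b : Fin n → Bool) : bil A B t (Rect_c a a') b = bil A B t a b + bil A B t a' b := by
  unfold bil
  rw [← sum_add_distrib]
  refine sum_congr rfl fun i _ => ?_
  rw [← sum_add_distrib]
  refine sum_congr rfl fun j _ => ?_
  have h : bit (Rect_c a a' i) = bit (a i) + bit (a' i) := Rect_bit _ _
  rw [h]
  ring

private theorem Rect_bil_eq (A B : Finset (Fin n)) (t : Fin (2 * n - 1) → Bool)
    (a b : Fin n → Bool) :
    bil A B t a b = ∑ j ∈ B, (∑ i ∈ A, bit (t (ad i j)) * bit (a i)) * bit (b j) := by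
  unfold bil
  rw [sum_comm]
  refine sum_congr rfl fun j _ => ?_
  rw [sum_mul]

/-- one bit flipped -/
private def Rect_f (j : Fin n) (b : Fin n → Bool) : Fin n → Bool := Function.update b j (!b j)

private theorem Rect_f_f (j : Fin n) : Function.Involutive (Rect_f (n := n) j) := by
  intro b
  funext i
  unfold Rect_f
  by_cases h : i = j
  · subst h
    rw [Function.update_self, Function.update_self, Bool.not_not]
  · rw [Function.update_of_ne h, Function.update_of_ne h]

private theorem Rect_c_inv (a : Fin n → Bool) : Function.Involutive (Rect_c a) := Rect_c_c a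

private theorem Rect_sum_chi (A B : Finset (Fin n)) (t : Fin (2 * n - 1) → Bool)
    (a : Fin n → Bool) :
    (Ker A B t a → ∑ b, chi (bil A B t a b) = 2 ^ n) ∧
      (¬ Ker A B t a → ∑ b, chi (bil A B t a b) = 0) := by
  constructor
  · intro h
    have h1 : ∀ b ∈ (univ : Finset (Fin n → Bool)), chi (bil A B t a b) = 1 := by
      intro b _
      rw [Rect_bil_eq, sum_eq_zero, Rect_chi_zero]
      intro j hj
      rw [h j hj, zero_mul]
    rw [sum_congr rfl h1, sum_const, card_univ, Fintype.card_fun, Fintype.card_bool,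
      Fintype.card_fin, nsmul_eq_mul, mul_one]
    push_cast
    rfl
  · intro h
    unfold Ker at h
    push Not at h
    obtain ⟨j, hj, hr⟩ := h
    have hr1 : ∑ i ∈ A, bit (t (ad i j)) * bit (a i) = 1 := (Rect_zmod _).resolve_left hr
    have h1 : ∀ b, chi (bil A B t a (Rect_f j b)) = -chi (bil A B t a b) := by
      intro b
      have e1 : bil A B t a (Rect_f j b) = bil A B t a b + 1 := by
        rw [Rect_bil_eq, Rect_bil_eq, ← add_sum_erase B _ hj, ← add_sum_erase B _ hj, hr1]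
        have e2 : ∑ x ∈ B.erase j, (∑ i ∈ A, bit (t (ad i x)) * bit (a i)) *
            bit (Rect_f j b x) =
            ∑ x ∈ B.erase j, (∑ i ∈ A, bit (t (ad i x)) * bit (a i)) * bit (b x) := by
          refine sum_congr rfl fun x hx => ?_
          have hne : x ≠ j := (mem_erase.1 hx).1
          unfold Rect_f
          rw [Function.update_of_ne hne]
        have e3 : bit (Rect_f j b j) = bit (b j) + 1 := by
          unfold Rect_f
          rw [Function.update_self]
          cases b j <;> rfl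
        rw [e2, e3]
        ring
      rw [e1, chi_add, Rect_chi_one]
      ring
    have h2 : ∑ b, chi (bil A B t a (Rect_f j b)) = ∑ b, chi (bil A B t a b) :=
      Equiv.sum_comp (Rect_f_f j).toPerm fun b => chi (bil A B t a b)
    rw [sum_congr rfl fun b _ => h1 b, sum_neg_distrib] at h2
    linarith

open Classical in
private theorem Rect_kap (A B : Finset (Fin n)) (t : Fin (2 * n - 1) → Bool)
    (a : Fin n → Bool) :
    ∑ a' : Fin n → Bool, (if Ker A B t (Rect_c a a') then (1 : ℝ) else 0) = kap A B t := by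
  have h1 : ∑ a' : Fin n → Bool, (if Ker A B t (Rect_c a a') then (1 : ℝ) else 0) =
      ∑ a' : Fin n → Bool, (if Ker A B t a' then (1 : ℝ) else 0) :=
    Equiv.sum_comp (Rect_c_inv a).toPerm fun a' => if Ker A B t a' then (1 : ℝ) else 0
  rw [h1]
  unfold kap
  rw [sum_boole]

private theorem Rect_sq_le (φ₁ : (Fin n → Bool) → ℝ) (h₁ : ∀ a, |φ₁ a| ≤ 1)
    (A B : Finset (Fin n)) (t : Fin (2 * n - 1) → Bool) :
    ∑ b, (∑ a, φ₁ a * chi (bil A B t a b)) ^ 2 ≤ 2 ^ n * (2 ^ n * (kap A B t : ℝ)) := by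
  classical
  have h1 : ∀ b, (∑ a, φ₁ a * chi (bil A B t a b)) ^ 2 =
      ∑ a, ∑ a', φ₁ a * φ₁ a' * chi (bil A B t (Rect_c a a') b) := by
    intro b
    rw [sq, sum_mul_sum]
    refine sum_congr rfl fun a _ => sum_congr rfl fun a' _ => ?_
    rw [Rect_bil_add, chi_add]
    ring
  calc ∑ b, (∑ a, φ₁ a * chi (bil A B t a b)) ^ 2
      = ∑ b, ∑ a, ∑ a', φ₁ a * φ₁ a' * chi (bil A B t (Rect_c a a') b) :=
        sum_congr rfl fun b _ => h1 b
    _ = ∑ a, ∑ a', φ₁ a * φ₁ a' * ∑ b, chi (bil A B t (Rect_c a a') b) := by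
        rw [sum_comm]
        refine sum_congr rfl fun a _ => ?_
        rw [sum_comm]
        refine sum_congr rfl fun a' _ => ?_
        rw [mul_sum]
    _ ≤ ∑ a : Fin n → Bool, ∑ a' : Fin n → Bool,
          2 ^ n * (if Ker A B t (Rect_c a a') then (1 : ℝ) else 0) := by
        refine sum_le_sum fun a _ => sum_le_sum fun a' _ => ?_
        have h2 : φ₁ a * φ₁ a' ≤ 1 := by
          have e1 := h₁ a
          have e2 := h₁ a'
          calc φ₁ a * φ₁ a' ≤ |φ₁ a * φ₁ a'| := le_abs_self _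
            _ = |φ₁ a| * |φ₁ a'| := abs_mul _ _
            _ ≤ 1 * 1 := mul_le_mul e1 e2 (abs_nonneg _) zero_le_one
            _ = 1 := one_mul 1
        by_cases hk : Ker A B t (Rect_c a a')
        · rw [(Rect_sum_chi A B t (Rect_c a a')).1 hk, if_pos hk, mul_one]
          exact mul_le_of_le_one_left (by positivity) h2
        · rw [(Rect_sum_chi A B t (Rect_c a a')).2 hk, if_neg hk, mul_zero, mul_zero]
    _ = ∑ _a : Fin n → Bool, 2 ^ n * (kap A B t : ℝ) := by
        refine sum_congr rfl fun a _ => ?_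
        rw [← mul_sum, Rect_kap]
    _ = 2 ^ n * (2 ^ n * (kap A B t : ℝ)) := by
        rw [sum_const, card_univ, Fintype.card_fun, Fintype.card_bool, Fintype.card_fin,
          nsmul_eq_mul]
        push_cast
        rfl

theorem rect (A B : Finset (Fin n)) (t : Fin (2 * n - 1) → Bool) (φ₁ φ₂ : (Fin n → Bool) → ℝ)
    (h₁ : ∀ a, |φ₁ a| ≤ 1) (h₂ : ∀ b, |φ₂ b| ≤ 1) :
    (∑ a, ∑ b, φ₁ a * φ₂ b * chi (bil A B t a b)) ^ 2 ≤ 2 ^ (3 * n) * (kap A B t : ℝ) := by
  have h3 : ∑ a, ∑ b, φ₁ a * φ₂ b * chi (bil A B t a b) =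
      ∑ b, φ₂ b * ∑ a, φ₁ a * chi (bil A B t a b) := by
    rw [sum_comm]
    refine sum_congr rfl fun b _ => ?_
    rw [mul_sum]
    refine sum_congr rfl fun a _ => ?_
    ring
  have h4 : ∑ b, φ₂ b ^ 2 ≤ 2 ^ n := by
    have e1 : ∀ b ∈ (univ : Finset (Fin n → Bool)), φ₂ b ^ 2 ≤ 1 := by
      intro b _
      rw [← sq_abs]
      exact pow_le_one₀ (abs_nonneg _) (h₂ b)
    refine (sum_le_sum e1).trans (le_of_eq ?_)
    rw [sum_const, card_univ, Fintype.card_fun, Fintype.card_bool, Fintype.card_fin,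
      nsmul_eq_mul, mul_one]
    push_cast
    rfl
  rw [h3]
  calc (∑ b, φ₂ b * ∑ a, φ₁ a * chi (bil A B t a b)) ^ 2
      ≤ (∑ b, φ₂ b ^ 2) * ∑ b, (∑ a, φ₁ a * chi (bil A B t a b)) ^ 2 :=
        sum_mul_sq_le_sq_mul_sq _ _ _
    _ ≤ 2 ^ n * (2 ^ n * (2 ^ n * (kap A B t : ℝ))) :=
        mul_le_mul h4 (Rect_sq_le φ₁ h₁ A B t) (sum_nonneg fun b _ => sq_nonneg _)
          (by positivity)
    _ = 2 ^ (3 * n) * (kap A B t : ℝ) := by
        rw [show 3 * n = n + n + n by ring, pow_add, pow_add]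
        ring

end Pool.Agent.Lib_MP_22d2c8_bs
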